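import Pool.Agent.H207R2.BL.Rep

/-!
The matrix `q ^ |ρ ⊔ σ|` indexed by noncrossing partitions is positive semidefinite for `q ≥ 4`.
-/

set_option autoImplicit false
set_option linter.unusedSectionVars false

namespace Pool.Agent.H207R2.BL

open Function

/-- A partition of a linear order is noncrossing. -/
def NonCrossing {α : Type} [LinearOrder α] (ρ : Setoid α) : Prop :=
  ∀ a b c d : α, a < b → b < c → c < d → ρ a c → ρ b d → ρ a b

section ipfacts

variable {ι κ : Type} [Fintype ι] [DecidableEq ι] [Fintype κ] [DecidableEq κ]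

theorem ip_smul_right (r : ℝ) (f g : Fn ι κ) : ip f (r • g) = r * ip f g := by
  simp only [ip, Pi.smul_apply, smul_eq_mul, Finset.mul_sum]
  exact Finset.sum_congr rfl (fun s _ => by ring)

theorem ip_smul_left (r : ℝ) (f g : Fn ι κ) : ip (r • f) g = r * ip f g := by
  rw [ip_comm, ip_smul_right, ip_comm]

theorem ip_sum_right {I : Type} (s : Finset I) (f : Fn ι κ) (g : I → Fn ι κ) :
    ip f (∑ i ∈ s, g i) = ∑ i ∈ s, ip f (g i) := by
  simp only [ip, Finset.sum_apply, Finset.mul_sum]
  exact Finset.sum_comm

theorem ip_sum_left {I : Type} (s : Finset I) (f : Fn ι κ) (g : I → Fn ι κ) :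
    ip (∑ i ∈ s, g i) f = ∑ i ∈ s, ip (g i) f := by
  rw [ip_comm, ip_sum_right]
  exact Finset.sum_congr rfl (fun i _ => ip_comm _ _)

theorem ip_self_nonneg (f : Fn ι κ) : 0 ≤ ip f f :=
  Finset.sum_nonneg (fun _ _ => mul_self_nonneg _)

theorem ip_word {M : ℕ} {q : ℝ} (S : TL M q (Module.End ℝ (Fn ι κ)))
    (hS : ∀ j, j < M → ∀ f g : Fn ι κ, ip f (S.e j g) = ip (S.e j f) g)
    (w : List ℕ) (hw : ∀ j ∈ w, j < M) (f g : Fn ι κ) :
    ip (S.W w f) g = ip f (S.W w.reverse g) := by
  induction w generalizing f g with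
  | nil => simp
  | cons j w ih =>
    have h1 := hw j List.mem_cons_self
    have h2 := ih (fun i hi => hw i (List.mem_cons_of_mem _ hi))
    rw [TL.W_cons, Module.End.mul_apply, ← hS j h1, h2, List.reverse_cons, TL.W_append,
      Module.End.mul_apply]
    simp

/-- The vector state of an eigenvector. -/
def vecState {M : ℕ} {q : ℝ} (S : TL M q (Module.End ℝ (Fn ι κ)))
    (hS : ∀ j, j < M → ∀ f g : Fn ι κ, ip f (S.e j g) = ip (S.e j f) g)
    (ω : Fn ι κ) (hω : ∀ j, j < M → Even j → S.e j ω = q • ω) : State S where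
  φ :=
    { toFun := fun T => ip ω (T ω)
      map_add' := by
        intro T U
        simp only [LinearMap.add_apply, ip, Pi.add_apply, mul_add, Finset.sum_add_distrib]
      map_smul' := by
        intro r T
        simp only [LinearMap.smul_apply, ip_smul_right, RingHom.id_apply, smul_eq_mul] }
  left := by
    intro j hj he x
    change ip ω ((S.e j * x) ω) = q * ip ω (x ω)
    rw [Module.End.mul_apply, hS j hj, hω j hj he, ip_smul_left]
  right := by
    intro j hj he x
    change ip ω ((x * S.e j) ω) = q * ip ω (x ω)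
    rw [Module.End.mul_apply, hω j hj he, map_smul, ip_smul_right]

end ipfacts

section coloring

/-- boundary points as a function on `ℕ` -/
def pt (n : ℕ) (i : ℕ) : Fin (n + 1) := Fin.ofNat (n + 1) i

theorem pt_val (n i : ℕ) (hi : i ≤ n) : (pt n i).val = i := by
  simp [pt, Nat.mod_eq_of_lt (Nat.lt_succ_of_le hi)]

theorem pt_inj (n : ℕ) : ∀ i j, i ≤ n → j ≤ n → pt n i = pt n j → i = j := by
  intro i j hi hj h
  rw [← pt_val n i hi, ← pt_val n j hj, h]

theorem pt_of_fin (n : ℕ) (i : Fin (n + 1)) : pt n i.val = i := by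
  apply Fin.ext
  exact pt_val n i.val (Nat.lt_succ_iff.1 i.isLt)

/-- The colouring representation on `n + 1` boundary points with `k` colours. -/
noncomputable def PR (n k : ℕ) : TL (2 * n + 1) (k : ℝ) (Module.End ℝ (Fn (Fin (n + 1)) (Fin k))) :=
  potts n (pt n) (pt_inj n) (k : ℝ) (by simp)

theorem PR_even (n k i : ℕ) : (PR n k).e (2 * i) = Cop (pt n i) := by
  change (if Even (2 * i) then Cop (pt n (2 * i / 2)) else
    Jop (pt n (2 * i / 2)) (pt n (2 * i / 2 + 1)) :
    Module.End ℝ (Fn (Fin (n + 1)) (Fin k))) = Cop (pt n i)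
  have h3 : 2 * i / 2 = i := by omega
  rw [if_pos (even_two_mul i), h3]

theorem PR_odd (n k i : ℕ) : (PR n k).e (2 * i + 1) = Jop (pt n i) (pt n (i + 1)) := by
  change (if Even (2 * i + 1) then Cop (pt n ((2 * i + 1) / 2)) else
    Jop (pt n ((2 * i + 1) / 2)) (pt n ((2 * i + 1) / 2 + 1)) :
    Module.End ℝ (Fn (Fin (n + 1)) (Fin k))) = Jop (pt n i) (pt n (i + 1))
  have h3 : (2 * i + 1) / 2 = i := by omega
  rw [if_neg (by simp), h3]

/-- word for joining `i` and `i+1+d`, valid on functions independent of what is strictly between. -/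
def joinW : ℕ → ℕ → List ℕ
  | i, 0 => [2 * i + 1]
  | i, d + 1 => 2 * (i + 1) :: (2 * i + 1) :: joinW (i + 1) d

theorem joinW_lt (n : ℕ) (d i : ℕ) (h : i + 1 + d ≤ n) : ∀ j ∈ joinW i d, j < 2 * n + 1 := by
  induction d generalizing i with
  | zero =>
    intro j hj
    simp only [joinW, List.mem_singleton] at hj
    omega
  | succ d ih =>
    intro j hj
    simp only [joinW, List.mem_cons] at hj
    rcases hj with hj | hj | hj
    · omega
    · omega
    · exact ih (i + 1) (by omega) j hj

theorem joinW_act (n k : ℕ) (d i : ℕ) (h : i + 1 + d ≤ n) (f : Fn (Fin (n + 1)) (Fin k))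
    (hf : ∀ l, i < l → l < i + 1 + d → ∀ c x, f (update c (pt n l) x) = f c)
    (c : Fin (n + 1) → Fin k) :
    (PR n k).W (joinW i d) f c = if c (pt n i) = c (pt n (i + 1 + d)) then f c else 0 := by
  induction d generalizing i c with
  | zero =>
    simp only [joinW, TL.W_cons, TL.W_nil, mul_one, PR_odd, Jop_apply]
  | succ d ih =>
    have ih' := ih (i + 1) (by omega) (fun l h1 h2 => hf l (by omega) (by omega))
    have h1 : pt n i ≠ pt n (i + 1) := fun h' => by
      have := pt_inj n _ _ (by omega) (by omega) h'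
      omega
    have h2 : pt n (i + 1 + 1 + d) ≠ pt n (i + 1) := fun h' => by
      have := pt_inj n _ _ (by omega) (by omega) h'
      omega
    have h3 : i + 1 + (d + 1) = i + 1 + 1 + d := by omega
    simp only [joinW, TL.W_cons, PR_odd, PR_even, Module.End.mul_apply, Cop_apply, Jop_apply]
    simp only [ih', update_self, update_of_ne h1, update_of_ne h2, hf (i + 1) (by omega) (by omega),
      h3]
    rw [Finset.sum_ite_eq]
    simp

open Classical in
/-- indicator of colourings constant on blocks -/
noncomputable def ind {α κ : Type} (ρ : Setoid α) (c : α → κ) : ℝ :=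
  if ρ ≤ Setoid.ker c then 1 else 0

theorem ind_of {α κ : Type} (ρ : Setoid α) (c : α → κ) (h : ∀ x y, ρ x y → c x = c y) :
    ind ρ c = 1 := by
  unfold ind
  rw [if_pos]
  intro x y hxy
  exact h x y hxy

theorem ind_not {α κ : Type} (ρ : Setoid α) (c : α → κ) (h : ¬ ∀ x y, ρ x y → c x = c y) :
    ind ρ c = 0 := by
  unfold ind
  rw [if_neg]
  intro h'
  exact h (fun x y hxy => h' hxy)

theorem exists_word (n : ℕ) (ρ : Setoid (Fin (n + 1))) (hρ : NonCrossing ρ) :
    ∃ w : List ℕ, (∀ j ∈ w, j < 2 * n + 1) ∧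
      ∀ (k : ℕ) (c : Fin (n + 1) → Fin k), (PR n k).W w (fun _ => 1) c = ind ρ c := by
  classical
  induction hN : (Finset.univ.filter (fun p : Fin (n + 1) × Fin (n + 1) => ρ p.1 p.2)).card
    using Nat.strong_induction_on generalizing ρ with
  | _ N ih =>
    subst hN
    by_cases htriv : ∀ i j, ρ i j → i = j
    · refine ⟨[], by simp, ?_⟩
      intro k c
      rw [ind_of ρ c (fun x y h => by rw [htriv x y h])]
      simp
    · push Not at htriv
      -- closest related pair
      let T : Finset (Fin (n + 1) × Fin (n + 1)) :=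
        Finset.univ.filter (fun p => ρ p.1 p.2 ∧ p.1 < p.2)
      have hT : T.Nonempty := by
        obtain ⟨i, j, hij, hne⟩ := htriv
        rcases lt_or_gt_of_ne hne with h | h
        · exact ⟨(i, j), by simp [T, hij, h]⟩
        · exact ⟨(j, i), by simp [T, ρ.symm hij, h]⟩
      obtain ⟨⟨i, j⟩, hijT, hmin⟩ := T.exists_min_image (fun p => p.2.val - p.1.val) hT
      have hij : ρ i j := by simpa [T] using (Finset.mem_filter.1 hijT).2.1
      have hlt : i < j := by simpa [T] using (Finset.mem_filter.1 hijT).2.2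
      have hmin' : ∀ x y : Fin (n + 1), x < y → ρ x y → j.val - i.val ≤ y.val - x.val := by
        intro x y hxy h
        exact hmin (x, y) (by simp [T, h, hxy])
      have hsing : ∀ l x : Fin (n + 1), i < l → l < j → ρ l x → x = l := by
        intro l x h1 h2 hlx
        by_contra hne
        have hil : ¬ ρ i l := fun h => by
          have := hmin' i l h1 h
          have h1' := Fin.lt_def.1 h1
          have h2' := Fin.lt_def.1 h2
          omega
        rcases lt_trichotomy x i with hx | hx | hx
        · have h3 := hρ x i l j hx h1 h2 (ρ.symm hlx) hij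
          exact hil (ρ.trans (ρ.symm h3) (ρ.symm hlx))
        · subst hx
          exact hil (ρ.symm hlx)
        · rcases lt_trichotomy x l with hxl | hxl | hxl
          · have := hmin' x l hxl (ρ.symm hlx)
            have h1' := Fin.lt_def.1 hx
            have h2' := Fin.lt_def.1 h2
            have h3' := Fin.lt_def.1 hxl
            omega
          · exact hne hxl
          · rcases lt_trichotomy x j with hxj | hxj | hxj
            · have := hmin' l x hxl hlx
              have h1' := Fin.lt_def.1 hx
              have h2' := Fin.lt_def.1 h1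
              have h3' := Fin.lt_def.1 hxj
              omega
            · subst hxj
              exact hil (ρ.trans hij (ρ.symm hlx))
            · exact hil (hρ i l j x h1 h2 hxj hij hlx)
      -- split the block of `i`
      let ρ' : Setoid (Fin (n + 1)) :=
        { r := fun x y => ρ x y ∧ (ρ x i → (x ≤ i ↔ y ≤ i))
          iseqv :=
            { refl := fun x => ⟨ρ.refl x, fun _ => Iff.rfl⟩
              symm := fun {x y} h => ⟨ρ.symm h.1, fun h' => (h.2 (ρ.trans h.1 h')).symm⟩
              trans := fun {x y z} h h' => ⟨ρ.trans h.1 h'.1, fun h'' =>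
                (h.2 h'').trans (h'.2 (ρ.trans (ρ.symm h.1) h''))⟩ } }
      have hρ'def : ∀ x y, ρ' x y ↔ (ρ x y ∧ (ρ x i → (x ≤ i ↔ y ≤ i))) := fun x y => Iff.rfl
      have hNC' : NonCrossing ρ' := by
        intro a b c d hab hbc hcd hac hbd
        rw [hρ'def] at hac hbd ⊢
        have h1 := hρ a b c d hab hbc hcd hac.1 hbd.1
        refine ⟨h1, fun h2 => ?_⟩
        have h3 := hac.2 h2
        constructor
        · intro h4
          exact hbc.le.trans (h3.1 h4)
        · intro h4
          exact hab.le.trans h4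
      have hcard : (Finset.univ.filter (fun p : Fin (n + 1) × Fin (n + 1) => ρ' p.1 p.2)).card <
          (Finset.univ.filter (fun p : Fin (n + 1) × Fin (n + 1) => ρ p.1 p.2)).card := by
        apply Finset.card_lt_card
        rw [Finset.ssubset_iff_of_subset]
        · refine ⟨(i, j), by simp [hij], ?_⟩
          intro h
          have h1 := (Finset.mem_filter.1 h).2
          simp only at h1
          rw [hρ'def] at h1
          have h2 := (h1.2 (ρ.refl i)).1 le_rfl
          exact absurd hlt (not_lt.2 h2)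
        · intro p hp
          have h1 := (Finset.mem_filter.1 hp).2
          rw [hρ'def] at h1
          simp [h1.1]
      obtain ⟨w', hw', hact⟩ := ih _ hcard ρ' hNC' rfl
      have hij' := Fin.lt_def.1 hlt
      have hjn : j.val ≤ n := Nat.lt_succ_iff.1 j.isLt
      have hd : i.val + 1 + (j.val - i.val - 1) = j.val := by omega
      refine ⟨joinW i.val (j.val - i.val - 1) ++ w', ?_, ?_⟩
      · intro t ht
        rcases List.mem_append.1 ht with ht | ht
        · exact joinW_lt n _ _ (by omega) t ht
        · exact hw' t ht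
      · intro k c
        rw [TL.W_append, Module.End.mul_apply, joinW_act n k _ _ (by omega)]
        · rw [hd, pt_of_fin, pt_of_fin, hact]
          by_cases hc : c i = c j
          · rw [if_pos hc]
            by_cases hr : ∀ x y, ρ' x y → c x = c y
            · rw [ind_of ρ' c hr, ind_of ρ c]
              have hside : ∀ x y, ρ x y → ρ x i → x ≤ i → ¬ y ≤ i → c x = c y := by
                intro x y hxy hxi hx hy
                have hyj : j ≤ y := by
                  by_contra hyj
                  push Not at hyj hy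
                  have := hsing y i hy hyj (ρ.trans (ρ.symm hxy) hxi)
                  exact absurd (this ▸ hy) (lt_irrefl _)
                have h1 : c x = c i := hr x i (by
                  rw [hρ'def]
                  exact ⟨hxi, fun _ => ⟨fun _ => le_rfl, fun _ => hx⟩⟩)
                have h2 : c y = c j := hr y j (by
                  rw [hρ'def]
                  refine ⟨ρ.trans (ρ.symm hxy) (ρ.trans hxi hij), fun _ => ?_⟩
                  constructor
                  · intro h; exact absurd h hy
                  · intro h; exact absurd hlt (not_lt.2 h))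
                rw [h1, h2, hc]
              intro x y hxy
              by_cases hxi : ρ x i
              · by_cases hx : x ≤ i <;> by_cases hy : y ≤ i
                · exact hr x y (by rw [hρ'def]; exact ⟨hxy, fun _ => by simp [hx, hy]⟩)
                · exact hside x y hxy hxi hx hy
                · exact (hside y x (ρ.symm hxy) (ρ.trans (ρ.symm hxy) hxi) hy hx).symm
                · exact hr x y (by rw [hρ'def]; exact ⟨hxy, fun _ => by simp [hx, hy]⟩)
              · exact hr x y (by rw [hρ'def]; exact ⟨hxy, fun h => absurd h hxi⟩)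
            · rw [ind_not ρ' c hr, ind_not ρ c]
              intro h
              exact hr (fun x y hxy => h x y ((hρ'def x y).1 hxy).1)
          · rw [if_neg hc, ind_not ρ c]
            intro h
            exact hc (h i j hij)
        · intro l hl1 hl2 c x
          rw [hact, hact]
          have hln : l ≤ n := by omega
          have hl1' : i < pt n l := by
            rw [Fin.lt_def, pt_val n l hln]; exact hl1
          have hl2' : pt n l < j := by
            rw [Fin.lt_def, pt_val n l hln]; omega
          have hs : ∀ y z, ρ' y z → y ≠ z → y ≠ pt n l ∧ z ≠ pt n l := by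
            intro y z hyz hne
            have h1 := ((hρ'def y z).1 hyz).1
            constructor
            · intro h
              rw [h] at h1
              exact hne (by rw [h, hsing _ _ hl1' hl2' h1])
            · intro h
              rw [h] at h1
              exact hne (by rw [h, hsing _ _ hl1' hl2' (ρ.symm h1)])
          by_cases hr : ∀ y z, ρ' y z → c y = c z
          · rw [ind_of ρ' c hr, ind_of ρ']
            intro y z hyz
            by_cases hne : y = z
            · rw [hne]
            · obtain ⟨h1, h2⟩ := hs y z hyz hne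
              rw [update_of_ne h1, update_of_ne h2]
              exact hr y z hyz
          · rw [ind_not ρ' c hr, ind_not ρ']
            intro h
            apply hr
            intro y z hyz
            by_cases hne : y = z
            · rw [hne]
            · obtain ⟨h1, h2⟩ := hs y z hyz hne
              have := h y z hyz
              rwa [update_of_ne h1, update_of_ne h2] at this

theorem sum_ind {α : Type} [Fintype α] [DecidableEq α] (k : ℕ) (ρ σ : Setoid α) :
    ∑ c : α → Fin k, ind ρ c * ind σ c = (k : ℝ) ^ (Nat.card (Quotient (ρ ⊔ σ))) := by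
  classical
  have h1 : ∀ c : α → Fin k, ind ρ c * ind σ c = if ρ ⊔ σ ≤ Setoid.ker c then (1 : ℝ) else 0 := by
    intro c
    unfold ind
    rw [sup_le_iff]
    by_cases h1 : ρ ≤ Setoid.ker c <;> by_cases h2 : σ ≤ Setoid.ker c <;> simp [h1, h2]
  rw [Finset.sum_congr rfl (fun c _ => h1 c), Finset.sum_boole]
  have h2 : (Finset.univ.filter (fun c : α → Fin k => ρ ⊔ σ ≤ Setoid.ker c)).card =
      Nat.card (Quotient (ρ ⊔ σ) → Fin k) := by
    rw [← Nat.card_congr (Setoid.liftEquiv (ρ ⊔ σ) (β := Fin k)), Nat.card_eq_fintype_card,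
      Fintype.card_subtype]
  rw [h2, Nat.card_fun, Nat.card_fin]
  push_cast
  rfl

end coloring

section vertexvec

/-- the sites -/
def st (n : ℕ) (j : ℕ) : Fin (2 * n + 2) := Fin.ofNat (2 * n + 2) j

theorem st_val (n j : ℕ) (hj : j ≤ 2 * n + 1) : (st n j).val = j := by
  simp [st, Nat.mod_eq_of_lt (Nat.lt_succ_of_le hj)]

theorem st_inj (n : ℕ) : ∀ i j, i ≤ 2 * n + 1 → j ≤ 2 * n + 1 → st n i = st n j → i = j := by
  intro i j hi hj h
  rw [← st_val n i hi, ← st_val n j hj, h]

/-- product of cups -/
noncomputable def om (n : ℕ) (w : Bool → ℝ) : Fn (Fin (2 * n + 2)) Bool := fun s =>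
  ∏ i ∈ Finset.range (n + 1), cup w (s (st n (2 * i))) (s (st n (2 * i + 1)))

theorem Eop_om (n : ℕ) (w : Bool → ℝ) (i : ℕ) (hi : i ≤ n) :
    Eop w (st n (2 * i)) (st n (2 * i + 1)) (om n w) = (w true ^ 2 + w false ^ 2) • om n w := by
  have hne : ∀ a b, a ≤ 2 * n + 1 → b ≤ 2 * n + 1 → a ≠ b → st n a ≠ st n b :=
    fun a b ha hb hab h => hab (st_inj n a b ha hb h)
  funext s
  have hmem : i ∈ Finset.range (n + 1) := Finset.mem_range.2 (by omega)
  have hom : ∀ s, om n w s = cup w (s (st n (2 * i))) (s (st n (2 * i + 1))) *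
      ∏ j ∈ (Finset.range (n + 1)).erase i,
        cup w (s (st n (2 * j))) (s (st n (2 * j + 1))) := by
    intro s
    unfold om
    rw [Finset.mul_prod_erase _ (fun j => cup w (s (st n (2 * j))) (s (st n (2 * j + 1)))) hmem]
  rw [Eop_apply]
  have h1 : Bf w (st n (2 * i)) (st n (2 * i + 1)) (om n w) s = (w true ^ 2 + w false ^ 2) *
      ∏ j ∈ (Finset.range (n + 1)).erase i,
        cup w (s (st n (2 * j))) (s (st n (2 * j + 1))) := by
    unfold Bf
    have h2 : ∀ x : Bool, w x * om n w (update (update s (st n (2 * i)) x) (st n (2 * i + 1)) (!x))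
        = w x ^ 2 * ∏ j ∈ (Finset.range (n + 1)).erase i,
        cup w (s (st n (2 * j))) (s (st n (2 * j + 1))) := by
      intro x
      rw [hom]
      have h3 : ∏ j ∈ (Finset.range (n + 1)).erase i,
          cup w (update (update s (st n (2 * i)) x) (st n (2 * i + 1)) (!x) (st n (2 * j)))
            (update (update s (st n (2 * i)) x) (st n (2 * i + 1)) (!x) (st n (2 * j + 1))) =
          ∏ j ∈ (Finset.range (n + 1)).erase i,
            cup w (s (st n (2 * j))) (s (st n (2 * j + 1))) := by
        refine Finset.prod_congr rfl (fun j hj => ?_)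
        have hj1 : j ≠ i := (Finset.mem_erase.1 hj).1
        have hj2 : j < n + 1 := Finset.mem_range.1 (Finset.mem_erase.1 hj).2
        rw [update_of_ne (hne _ _ (by omega) (by omega) (by omega)),
          update_of_ne (hne _ _ (by omega) (by omega) (by omega)),
          update_of_ne (hne _ _ (by omega) (by omega) (by omega)),
          update_of_ne (hne _ _ (by omega) (by omega) (by omega))]
      rw [h3, update_self, update_of_ne (hne _ _ (by omega) (by omega) (by omega)), update_self]
      have h4 : cup w x (!x) = w x := by simp [cup]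
      rw [h4]
      ring
    rw [Finset.sum_congr rfl (fun x _ => h2 x), ← Finset.sum_mul]
    simp
  rw [h1, Pi.smul_apply, hom, smul_eq_mul]
  ring

theorem om_pos (n : ℕ) (w : Bool → ℝ) (hw : ∀ x, 0 < w x) : 0 < ip (om n w) (om n w) := by
  let s0 : Fin (2 * n + 2) → Bool := fun i => decide (i.val % 2 = 0)
  have h1 : 0 < om n w s0 := by
    unfold om
    apply Finset.prod_pos
    intro i hi
    have hi' : i < n + 1 := Finset.mem_range.1 hi
    have h2 : s0 (st n (2 * i)) = true := by
      simp only [s0]
      rw [st_val n _ (by omega)]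
      simp
    have h3 : s0 (st n (2 * i + 1)) = false := by
      simp only [s0]
      rw [st_val n _ (by omega)]
      simp
    rw [h2, h3]
    simpa [cup] using hw true
  unfold ip
  exact Finset.sum_pos' (fun s _ => mul_self_nonneg _) ⟨s0, Finset.mem_univ _, mul_pos h1 h1⟩

end vertexvec

/-- Positive semidefiniteness for at least one boundary point. -/
theorem gram_succ (n : ℕ) (q : ℝ) (hq : 4 ≤ q) {I : Type} (s : Finset I) (a : I → ℝ)
    (ρ : I → Setoid (Fin (n + 1))) (hρ : ∀ i ∈ s, NonCrossing (ρ i)) :
    0 ≤ ∑ i ∈ s, ∑ j ∈ s, a i * a j * q ^ (Nat.card (Quotient (ρ i ⊔ ρ j))) := by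
  classical
  have hq0 : q ≠ 0 := by linarith
  -- choose the weights
  obtain ⟨w, hw, hwpos, hδ⟩ : ∃ w : Bool → ℝ, w true * w false = 1 ∧ (∀ x, 0 < w x) ∧
      q = (w true ^ 2 + w false ^ 2) ^ 2 := by
    have h2 : 2 ≤ Real.sqrt q := by
      rw [show (2 : ℝ) = Real.sqrt 4 by
        rw [show (4 : ℝ) = 2 ^ 2 by norm_num, Real.sqrt_sq (by norm_num)]]
      exact Real.sqrt_le_sqrt hq
    set d := Real.sqrt q with hd
    have hdd : d ^ 2 = q := Real.sq_sqrt (by linarith)
    set r := Real.sqrt (d ^ 2 - 4) with hr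
    have hrr : r ^ 2 = d ^ 2 - 4 := Real.sq_sqrt (by nlinarith)
    have hr0 : 0 ≤ r := Real.sqrt_nonneg _
    set t := (d + r) / 2 with ht
    have ht0 : 0 < t := by positivity
    have htt : t * (d - t) = 1 := by
      rw [ht]; nlinarith
    have hdt : 0 < d - t := by
      by_contra h
      push Not at h
      nlinarith
    refine ⟨fun b => if b then Real.sqrt t else Real.sqrt (d - t), ?_, ?_, ?_⟩
    · simp only [if_true, Bool.false_eq_true, if_false]
      rw [← Real.sqrt_mul ht0.le, htt, Real.sqrt_one]
    · intro x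
      cases x
      · simpa using hdt
      · simpa using ht0
    · simp only [if_true, Bool.false_eq_true, if_false]
      rw [Real.sq_sqrt ht0.le, Real.sq_sqrt hdt.le, ← hdd]
      ring
  have hδ0 : w true ^ 2 + w false ^ 2 ≠ 0 := by
    have := hwpos true
    positivity
  -- words
  have hwd : ∀ i : I, ∃ v : List ℕ, (i ∈ s → (∀ j ∈ v, j < 2 * n + 1) ∧
      ∀ (k : ℕ) (c : Fin (n + 1) → Fin k), (PR n k).W v (fun _ => 1) c = ind (ρ i) c) := by
    intro i
    by_cases hi : i ∈ s
    · obtain ⟨v, hv⟩ := exists_word n (ρ i) (hρ i hi)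
      exact ⟨v, fun _ => hv⟩
    · exact ⟨[], fun h => absurd h hi⟩
  choose v hv using hwd
  -- the vertex representation
  let S := vert n (st n) (st_inj n) w hw (w true ^ 2 + w false ^ 2) q rfl hδ0 hδ
  have hSsymm : ∀ j, j < 2 * n + 1 → ∀ f g : Fn (Fin (2 * n + 2)) Bool,
      ip f (S.e j g) = ip (S.e j f) g :=
    fun j hj f g => vert_symm n (st n) (st_inj n) w hw _ q rfl hδ0 hδ j hj f g
  have hSom : ∀ j, j < 2 * n + 1 → Even j → S.e j (om n w) = q • om n w := by
    intro j hj he
    obtain ⟨i, rfl⟩ := even_iff_exists_two_mul.1 he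
    change ((if Even (2 * i) then (w true ^ 2 + w false ^ 2) else (w true ^ 2 + w false ^ 2)⁻¹) •
      Eop w (st n (2 * i)) (st n (2 * i + 1)) : Module.End ℝ (Fn (Fin (2 * n + 2)) Bool))
        (om n w) = q • om n w
    rw [if_pos (even_two_mul i), LinearMap.smul_apply, Eop_om n w i (by omega), smul_smul, hδ]
    congr 1
    ring
  let F := vecState S hSsymm (om n w) hSom
  have hFpos : 0 < ip (om n w) (om n w) := om_pos n w hwpos
  -- the inner products
  let u : I → Fn (Fin (2 * n + 2)) Bool := fun i => S.W (v i) (om n w)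
  have hip : ∀ i ∈ s, ∀ j ∈ s, q ^ (Nat.card (Quotient (ρ i ⊔ ρ j))) =
      (q ^ (n + 1) / ip (om n w) (om n w)) * ip (u i) (u j) := by
    intro i hi j hj
    obtain ⟨hvi, hpi⟩ := hv i hi
    obtain ⟨hvj, hpj⟩ := hv j hj
    have hword : ∀ t ∈ (v i).reverse ++ v j, t < 2 * n + 1 := by
      intro t ht
      rcases List.mem_append.1 ht with ht | ht
      · exact hvi t (List.mem_reverse.1 ht)
      · exact hvj t ht
    obtain ⟨N, hN⟩ := state_eval n (2 * n + 1) le_rfl _ hword
    -- colourings with two colours
    have hP2 : ∀ j, j < 2 * n + 1 → ∀ f g : Fn (Fin (n + 1)) (Fin 2),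
        ip f ((PR n 2).e j g) = ip ((PR n 2).e j f) g :=
      fun j hj f g => potts_symm n (pt n) (pt_inj n) _ _ j f g
    have hP1 : ∀ j, j < 2 * n + 1 → Even j →
        (PR n 2).e j (fun _ => 1) = ((2 : ℕ) : ℝ) • (fun _ => (1 : ℝ)) := by
      intro j hj he
      obtain ⟨i, rfl⟩ := even_iff_exists_two_mul.1 he
      rw [PR_even]
      funext c
      simp [Cop_apply]
    have e1 := hN ((2 : ℕ) : ℝ) (by norm_num) _ (PR n 2) (vecState (PR n 2) hP2 (fun _ => 1) hP1)
    change ip (fun _ => 1) ((PR n 2).W ((v i).reverse ++ v j) (fun _ => 1)) =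
      ((2 : ℕ) : ℝ) ^ N * ip (fun _ => 1) ((1 : Module.End ℝ (Fn (Fin (n + 1)) (Fin 2)))
        (fun _ => 1)) at e1
    rw [TL.W_append, Module.End.mul_apply, ← ip_word (PR n 2) hP2 (v i) hvi] at e1
    have e2 : ip ((PR n 2).W (v i) (fun _ => 1)) ((PR n 2).W (v j) (fun _ => 1)) =
        ∑ c : Fin (n + 1) → Fin 2, ind (ρ i) c * ind (ρ j) c :=
      Finset.sum_congr rfl (fun c _ => by rw [hpi, hpj])
    have e3 : ip (fun _ : Fin (n + 1) → Fin 2 => (1 : ℝ))
        ((1 : Module.End ℝ (Fn (Fin (n + 1)) (Fin 2))) (fun _ => 1)) = ((2 : ℕ) : ℝ) ^ (n + 1) := by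
      simp [ip]
    rw [e2, sum_ind, e3] at e1
    have e4 : (Nat.card (Quotient (ρ i ⊔ ρ j)) : ℤ) = N + ((n + 1 : ℕ) : ℤ) := by
      have h2 : ((2 : ℕ) : ℝ) ^ (Nat.card (Quotient (ρ i ⊔ ρ j)) : ℤ) =
          ((2 : ℕ) : ℝ) ^ (N + ((n + 1 : ℕ) : ℤ)) := by
        rw [zpow_add₀ (by norm_num), zpow_natCast, zpow_natCast, e1]
      exact zpow_right_injective₀ (by norm_num) (by norm_num) h2
    -- the vertex side
    have f1 := hN q hq0 _ S F
    change ip (om n w) (S.W ((v i).reverse ++ v j) (om n w)) =
      q ^ N * ip (om n w) ((1 : Module.End ℝ (Fn (Fin (2 * n + 2)) Bool)) (om n w)) at f1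
    rw [TL.W_append, Module.End.mul_apply, ← ip_word S hSsymm (v i) hvi,
      Module.End.one_apply] at f1
    have f2 : q ^ (Nat.card (Quotient (ρ i ⊔ ρ j))) = q ^ N * q ^ (n + 1) := by
      rw [← zpow_natCast, e4, zpow_add₀ hq0, zpow_natCast]
    change _ = _ * ip (S.W (v i) (om n w)) (S.W (v j) (om n w))
    rw [f2, f1]
    field_simp
  have hsum : ∑ i ∈ s, ∑ j ∈ s, a i * a j * q ^ (Nat.card (Quotient (ρ i ⊔ ρ j))) =
      (q ^ (n + 1) / ip (om n w) (om n w)) *
        ip (∑ i ∈ s, a i • u i) (∑ i ∈ s, a i • u i) := by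
    rw [ip_sum_left, Finset.mul_sum]
    refine Finset.sum_congr rfl (fun i hi => ?_)
    rw [ip_sum_right, Finset.mul_sum]
    refine Finset.sum_congr rfl (fun j hj => ?_)
    rw [hip i hi j hj, ip_smul_left, ip_smul_right]
    ring
  rw [hsum]
  have : 0 ≤ q ^ (n + 1) / ip (om n w) (om n w) := by positivity
  exact mul_nonneg this (ip_self_nonneg _)

/-- **Positivity.** -/
theorem gram (n : ℕ) (q : ℝ) (hq : 4 ≤ q) {I : Type} (s : Finset I) (a : I → ℝ)
    (ρ : I → Setoid (Fin n)) (hρ : ∀ i ∈ s, NonCrossing (ρ i)) :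
    0 ≤ ∑ i ∈ s, ∑ j ∈ s, a i * a j * q ^ (Nat.card (Quotient (ρ i ⊔ ρ j))) := by
  rcases n with _ | n
  · have h : ∀ τ : Setoid (Fin 0), Nat.card (Quotient τ) = 0 := by
      intro τ
      have : IsEmpty (Quotient τ) := ⟨fun x => by
        induction x using Quotient.inductionOn with
        | _ x => exact Fin.elim0 x⟩
      exact Nat.card_of_isEmpty
    have h2 : ∑ i ∈ s, ∑ j ∈ s, a i * a j * q ^ (Nat.card (Quotient (ρ i ⊔ ρ j))) =
        (∑ i ∈ s, a i) * (∑ j ∈ s, a j) := by
      rw [Finset.sum_mul_sum]
      simp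
    rw [h2]
    exact mul_self_nonneg _
  · exact gram_succ n q hq s a ρ hρ

end Pool.Agent.H207R2.BL
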