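import Pool.Agent.H207R2.BL.Defs
import Pool.Agent.H207R2.BL.Gram

/-!
Chromatic polynomials of graphs glued from two crossless halves.
-/

set_option autoImplicit false
set_option linter.unusedSectionVars false

namespace Pool.Agent.H207R2.BL

open Polynomial

section

/-- proper map -/
def Proper {T κ : Type} (G : SimpleGraph T) (g : T → κ) : Prop := ∀ a b, G.Adj a b → g a ≠ g b

open Classical in
/-- `1` if proper and `0` otherwise -/
noncomputable def pr {T κ : Type} (G : SimpleGraph T) (g : T → κ) : ℝ := if Proper G g then 1 else 0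

theorem card_coloring {T : Type} [Fintype T] [DecidableEq T] (G : SimpleGraph T) (k : ℕ) :
    (Nat.card (G.Coloring (Fin k)) : ℝ) = ∑ g : T → Fin k, pr G g := by
  classical
  unfold pr
  rw [Finset.sum_boole]
  congr 1
  have e : G.Coloring (Fin k) ≃ {g : T → Fin k // Proper G g} :=
    { toFun := fun c => ⟨fun v => c v, fun a b h => c.valid h⟩
      invFun := fun g => SimpleGraph.Coloring.mk g.1 (fun {v w} h => g.2 v w h)
      left_inv := fun c => by ext v; rfl
      right_inv := fun g => rfl }
  rw [Nat.card_congr e, Nat.card_eq_fintype_card, Fintype.card_subtype]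

/-- number of ways to colour the inside -/
noncomputable def inner {V : Type} [Fintype V] [DecidableEq V] {n : ℕ}
    (N : SimpleGraph (V ⊕ Fin n)) (k : ℕ) (c : Fin n → Fin k) : ℝ :=
  ∑ x : V → Fin k, pr N (Sum.elim x c)

theorem glue_proper {V W κ : Type} {n : ℕ} (N : SimpleGraph (V ⊕ Fin n))
    (M : SimpleGraph (W ⊕ Fin n)) (x : V → κ) (y : W → κ) (c : Fin n → κ) :
    Proper (glue N M) (Sum.elim (Sum.elim x y) c) ↔
      Proper N (Sum.elim x c) ∧ Proper M (Sum.elim y c) := by
  have e1 : ∀ a : V ⊕ Fin n, Sum.elim (Sum.elim x y) c (Sum.map Sum.inl id a) = Sum.elim x c a := by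
    rintro (a | a) <;> rfl
  have e2 : ∀ a : W ⊕ Fin n, Sum.elim (Sum.elim x y) c (Sum.map Sum.inr id a) = Sum.elim y c a := by
    rintro (a | a) <;> rfl
  have i1 : Function.Injective (Sum.map Sum.inl id : V ⊕ Fin n → (V ⊕ W) ⊕ Fin n) :=
    Sum.map_injective.2 ⟨Sum.inl_injective, Function.injective_id⟩
  have i2 : Function.Injective (Sum.map Sum.inr id : W ⊕ Fin n → (V ⊕ W) ⊕ Fin n) :=
    Sum.map_injective.2 ⟨Sum.inr_injective, Function.injective_id⟩
  constructor
  · intro h
    constructor
    · intro a b hab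
      have := h (Sum.map Sum.inl id a) (Sum.map Sum.inl id b)
        (Or.inl (by
          rw [SimpleGraph.map_adj']
          refine ⟨i1.ne hab.ne, a, b, hab, rfl, rfl⟩))
      rwa [e1, e1] at this
    · intro a b hab
      have := h (Sum.map Sum.inr id a) (Sum.map Sum.inr id b)
        (Or.inr (by
          rw [SimpleGraph.map_adj']
          refine ⟨i2.ne hab.ne, a, b, hab, rfl, rfl⟩))
      rwa [e2, e2] at this
  · rintro ⟨h1, h2⟩ a b (hab | hab)
    · rw [SimpleGraph.map_adj'] at hab
      obtain ⟨_, a', b', hab', rfl, rfl⟩ := hab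
      rw [e1, e1]
      exact h1 a' b' hab'
    · rw [SimpleGraph.map_adj'] at hab
      obtain ⟨_, a', b', hab', rfl, rfl⟩ := hab
      rw [e2, e2]
      exact h2 a' b' hab'

theorem card_glue {V W : Type} [Fintype V] [DecidableEq V] [Fintype W] [DecidableEq W] {n : ℕ}
    (N : SimpleGraph (V ⊕ Fin n)) (M : SimpleGraph (W ⊕ Fin n)) (k : ℕ) :
    (Nat.card ((glue N M).Coloring (Fin k)) : ℝ) =
      ∑ c : Fin n → Fin k, inner N k c * inner M k c := by
  classical
  rw [card_coloring]
  rw [← (Equiv.sumArrowEquivProdArrow (V ⊕ W) (Fin n) (Fin k)).symm.sum_comp]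
  rw [Fintype.sum_prod_type, Finset.sum_comm]
  refine Finset.sum_congr rfl (fun c _ => ?_)
  rw [← (Equiv.sumArrowEquivProdArrow V W (Fin k)).symm.sum_comp]
  rw [Fintype.sum_prod_type]
  unfold inner
  rw [Finset.sum_mul_sum]
  refine Finset.sum_congr rfl (fun x _ => Finset.sum_congr rfl (fun y _ => ?_))
  have : (Equiv.sumArrowEquivProdArrow (V ⊕ W) (Fin n) (Fin k)).symm
      ((Equiv.sumArrowEquivProdArrow V W (Fin k)).symm (x, y), c) =
      Sum.elim (Sum.elim x y) c := rfl
  rw [this]
  unfold pr
  have h := glue_proper N M x y c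
  by_cases h1 : Proper N (Sum.elim x c) <;> by_cases h2 : Proper M (Sum.elim y c) <;>
    simp [h, h1, h2]

/-- the partition generated by a set of edges -/
def comp {T : Type} (A : Finset (Sym2 T)) : Setoid T :=
  (SimpleGraph.fromEdgeSet (A : Set (Sym2 T))).reachableSetoid

theorem comp_le {T κ : Type} (A : Finset (Sym2 T)) (g : T → κ) :
    comp A ≤ Setoid.ker g ↔ ∀ a b, s(a, b) ∈ A → g a = g b := by
  constructor
  · intro h a b hab
    by_cases hne : a = b
    · rw [hne]
    · have h1 : (comp A) a b :=
        SimpleGraph.Adj.reachable ((SimpleGraph.fromEdgeSet_adj _).2 ⟨by exact_mod_cast hab, hne⟩)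
      exact h h1
  · intro h a b hab
    have hr : (SimpleGraph.fromEdgeSet (A : Set (Sym2 T))).Reachable a b := hab
    obtain ⟨w⟩ := hr
    change g a = g b
    induction w with
    | nil => rfl
    | cons hadj _ ih =>
      rw [← ih ⟨_⟩]
      · exact h _ _ (by exact_mod_cast ((SimpleGraph.fromEdgeSet_adj _).1 hadj).1)
      · assumption

theorem pr_expand {T : Type} [Fintype T] [DecidableEq T] (G : SimpleGraph T)
    [DecidableRel G.Adj] {κ : Type} (g : T → κ) :
    pr G g = ∑ A ∈ G.edgeFinset.powerset, (-1 : ℝ) ^ A.card * ind (comp A) g := by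
  classical
  let m : Sym2 T → Prop := fun e => ∀ a b, s(a, b) = e → g a = g b
  have h1 : pr G g = ∏ e ∈ G.edgeFinset, (1 + (-(if m e then (1 : ℝ) else 0))) := by
    unfold pr
    by_cases h : Proper G g
    · rw [if_pos h]
      symm
      apply Finset.prod_eq_one
      intro e he
      have hm : ¬ m e := by
        intro hm
        induction e using Sym2.ind with
        | _ a b =>
          have hadj : G.Adj a b := by simpa using he
          exact h a b hadj (hm a b rfl)
      simp [hm]
    · rw [if_neg h]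
      symm
      unfold Proper at h
      push Not at h
      obtain ⟨a, b, hab, heq⟩ := h
      apply Finset.prod_eq_zero (i := s(a, b))
      · simpa using hab
      · have hm : m s(a, b) := by
          intro a' b' h'
          rw [Sym2.eq_iff] at h'
          rcases h' with ⟨rfl, rfl⟩ | ⟨rfl, rfl⟩
          · exact heq
          · exact heq.symm
        simp [hm]
  rw [h1, Finset.prod_one_add]
  refine Finset.sum_congr rfl (fun A _ => ?_)
  rw [Finset.prod_neg]
  congr 1
  have h2 : (∏ e ∈ A, if m e then (1 : ℝ) else 0) = if ∀ e ∈ A, m e then 1 else 0 := by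
    rw [Finset.prod_ite_zero]
    simp
  rw [h2]
  unfold ind
  have h3 : (∀ e ∈ A, m e) ↔ comp A ≤ Setoid.ker g := by
    rw [comp_le]
    constructor
    · intro h a b hab
      exact h _ hab a b rfl
    · intro h e he a b hab
      rw [← hab] at he
      exact h a b he
  simp only [h3]

theorem ext_count {V : Type} [Fintype V] [DecidableEq V] {n : ℕ} (S : Setoid (V ⊕ Fin n)) :
    ∃ m : ℕ, ∀ (k : ℕ) (c : Fin n → Fin k),
      ∑ x : V → Fin k, ind S (Sum.elim x c) =
        (k : ℝ) ^ m * ind (Setoid.comap Sum.inr S) c := by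
  classical
  let Q := Quotient S
  have : Fintype Q := Fintype.ofFinite _
  let R : Finset Q := Finset.univ.filter (fun z => ∃ i : Fin n, Quotient.mk S (Sum.inr i) = z)
  refine ⟨(Finset.univ \ R).card, ?_⟩
  intro k c
  have h0 : ∑ x : V → Fin k, ind S (Sum.elim x c) =
      (Nat.card {x : V → Fin k // S ≤ Setoid.ker (Sum.elim x c)} : ℝ) := by
    unfold ind
    rw [Finset.sum_boole, Nat.card_eq_fintype_card, Fintype.card_subtype]
  have e : {x : V → Fin k // S ≤ Setoid.ker (Sum.elim x c)} ≃
      {g : Q → Fin k // ∀ i, g (Quotient.mk S (Sum.inr i)) = c i} :=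
    { toFun := fun x => ⟨Quotient.lift (Sum.elim x.1 c) (fun a b h => x.2 h), fun i => rfl⟩
      invFun := fun g => ⟨fun v => g.1 (Quotient.mk S (Sum.inl v)), by
        have h1 : (Sum.elim (fun v => g.1 (Quotient.mk S (Sum.inl v))) c : V ⊕ Fin n → Fin k) =
            fun a => g.1 (Quotient.mk S a) := by
          funext a
          rcases a with a | a
          · rfl
          · exact (g.2 a).symm
        rw [h1]
        intro a b h
        change g.1 (Quotient.mk S a) = g.1 (Quotient.mk S b)
        rw [Quotient.sound h]⟩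
      left_inv := fun x => by
        apply Subtype.ext
        funext v
        rfl
      right_inv := fun g => by
        apply Subtype.ext
        funext z
        induction z using Quotient.inductionOn with
        | _ a =>
          rcases a with a | a
          · rfl
          · exact (g.2 a).symm }
  rw [h0, Nat.card_congr e]
  by_cases hc : ∀ i j : Fin n, S (Sum.inr i) (Sum.inr j) → c i = c j
  · have hind : ind (Setoid.comap Sum.inr S) c = 1 := ind_of _ _ (fun x y h => hc x y h)
    rw [hind, mul_one]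
    -- choose values on `R`
    have hch : ∀ z : Q, ∃ v : Fin k → Prop, True := fun _ => ⟨fun _ => True, trivial⟩
    let D : Q → Finset (Fin k) := fun z =>
      if z ∈ R then Finset.univ.filter (fun v => ∃ i, Quotient.mk S (Sum.inr i) = z ∧ c i = v)
      else Finset.univ
    have hD : ∀ g : Q → Fin k, (∀ i, g (Quotient.mk S (Sum.inr i)) = c i) ↔
        g ∈ Fintype.piFinset D := by
      intro g
      rw [Fintype.mem_piFinset]
      constructor
      · intro h z
        by_cases hz : z ∈ R
        · obtain ⟨i, hi⟩ := (Finset.mem_filter.1 hz).2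
          simp only [D, if_pos hz, Finset.mem_filter, Finset.mem_univ, true_and]
          exact ⟨i, hi, by rw [← hi, h i]⟩
        · simp [D, if_neg hz]
      · intro h i
        have hz : Quotient.mk S (Sum.inr i) ∈ R := by simp [R]
        have h1 := h (Quotient.mk S (Sum.inr i))
        simp only [D, if_pos hz, Finset.mem_filter, Finset.mem_univ, true_and] at h1
        obtain ⟨j, hj, hj'⟩ := h1
        rw [← hj']
        exact hc j i (Quotient.exact hj)
    have hcard : Nat.card {g : Q → Fin k // ∀ i, g (Quotient.mk S (Sum.inr i)) = c i} =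
        (Fintype.piFinset D).card := by
      rw [Nat.card_eq_fintype_card, Fintype.card_subtype]
      congr 1
      ext g
      simp only [Finset.mem_filter, Finset.mem_univ, true_and]
      exact hD g
    rw [hcard, Fintype.card_piFinset]
    have hDc : ∀ z : Q, (D z).card = if z ∈ R then 1 else k := by
      intro z
      by_cases hz : z ∈ R
      · rw [if_pos hz]
        obtain ⟨i, hi⟩ := (Finset.mem_filter.1 hz).2
        simp only [D, if_pos hz]
        rw [Finset.card_eq_one]
        refine ⟨c i, ?_⟩
        ext v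
        simp only [Finset.mem_filter, Finset.mem_univ, true_and, Finset.mem_singleton]
        constructor
        · rintro ⟨j, hj, rfl⟩
          exact hc j i (Quotient.exact (hj.trans hi.symm))
        · rintro rfl
          exact ⟨i, hi, rfl⟩
      · rw [if_neg hz]
        simp [D, if_neg hz]
    rw [Finset.prod_congr rfl (fun z _ => hDc z), Finset.prod_ite]
    simp only [Finset.prod_const_one, one_mul, Finset.prod_const]
    push_cast
    congr 2
    ext z
    simp
  · have hind : ind (Setoid.comap Sum.inr S) c = 0 := ind_not _ _ (fun h => hc (fun i j hij => h i j hij))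
    rw [hind, mul_zero]
    have : IsEmpty {g : Q → Fin k // ∀ i, g (Quotient.mk S (Sum.inr i)) = c i} := by
      refine ⟨fun g => hc (fun i j hij => ?_)⟩
      rw [← g.2 i, ← g.2 j, Quotient.sound hij]
    rw [Nat.card_of_isEmpty]
    simp

/-- `ρ_A` is noncrossing when the graph is crossless. -/
theorem comap_nc {V : Type} {n : ℕ} (N : SimpleGraph (V ⊕ Fin n)) (hN : Crossless N)
    (A : Finset (Sym2 (V ⊕ Fin n))) (hA : (A : Set (Sym2 (V ⊕ Fin n))) ⊆ N.edgeSet) :
    NonCrossing (Setoid.comap Sum.inr (comp A)) := by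
  classical
  intro a b c d hab hbc hcd hac hbd
  have hle : SimpleGraph.fromEdgeSet (A : Set (Sym2 (V ⊕ Fin n))) ≤ N := by
    intro x y hxy
    exact hA ((SimpleGraph.fromEdgeSet_adj _).1 hxy).1
  obtain ⟨p⟩ : (SimpleGraph.fromEdgeSet (A : Set (Sym2 (V ⊕ Fin n)))).Reachable
    (Sum.inr a) (Sum.inr c) := hac
  obtain ⟨p'⟩ : (SimpleGraph.fromEdgeSet (A : Set (Sym2 (V ⊕ Fin n)))).Reachable
    (Sum.inr b) (Sum.inr d) := hbd
  obtain ⟨v, hv1, hv2⟩ := hN a b c d hab hbc hcd (p.mapLe hle) (p'.mapLe hle)
  rw [SimpleGraph.Walk.support_mapLe_eq_support] at hv1 hv2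
  have h1 : (SimpleGraph.fromEdgeSet (A : Set (Sym2 (V ⊕ Fin n)))).Reachable (Sum.inr a) v :=
    ⟨p.takeUntil v hv1⟩
  have h2 : (SimpleGraph.fromEdgeSet (A : Set (Sym2 (V ⊕ Fin n)))).Reachable (Sum.inr b) v :=
    ⟨p'.takeUntil v hv2⟩
  exact h1.trans h2.symm

/-- **Reflection positivity of the chromatic polynomial** for `q ≥ 4`. -/
theorem psd {n : ℕ} {J : Type} [Fintype J] (V : J → Type) [∀ i, Finite (V i)]
    (N : ∀ i, SimpleGraph (V i ⊕ Fin n)) (hN : ∀ i, Crossless (N i))
    (p : J → J → ℝ[X]) (hp : ∀ i j, IsChrom (glue (N i) (N j)) (p i j))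
    (q : ℝ) (hq : 4 ≤ q) (a : J → ℝ) :
    0 ≤ ∑ i, ∑ j, a i * a j * (p i j).eval q := by
  classical
  have : ∀ i, Fintype (V i) := fun i => Fintype.ofFinite _
  choose m hm using fun (i : J) (A : Finset (Sym2 (V i ⊕ Fin n))) => ext_count (comp A)
  -- expansion of `inner`
  have hinner : ∀ i k (c : Fin n → Fin k), inner (N i) k c =
      ∑ A ∈ (N i).edgeFinset.powerset, (-1 : ℝ) ^ A.card * (k : ℝ) ^ (m i A) *
        ind (Setoid.comap Sum.inr (comp A)) c := by
    intro i k c
    unfold inner
    simp_rw [pr_expand]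
    rw [Finset.sum_comm]
    refine Finset.sum_congr rfl (fun A _ => ?_)
    rw [← Finset.mul_sum, hm i A k c]
    ring
  -- the polynomials
  let P : J → J → ℝ[X] := fun i j =>
    ∑ A ∈ (N i).edgeFinset.powerset, ∑ B ∈ (N j).edgeFinset.powerset,
      C ((-1 : ℝ) ^ A.card * (-1) ^ B.card) *
        X ^ (m i A + m j B + Nat.card (Quotient (Setoid.comap Sum.inr (comp A) ⊔
          Setoid.comap Sum.inr (comp B))))
  have hP : ∀ i j, p i j = P i j := by
    intro i j
    apply Polynomial.eq_of_infinite_eval_eq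
    apply Set.infinite_of_injective_forall_mem (f := fun k : ℕ => (k : ℝ)) Nat.cast_injective
    intro k
    change (p i j).eval (k : ℝ) = (P i j).eval (k : ℝ)
    rw [hp i j k, card_glue]
    simp_rw [hinner, Finset.sum_mul_sum]
    rw [Finset.sum_comm]
    simp only [P, Polynomial.eval_finsetSum, Polynomial.eval_mul, Polynomial.eval_C,
      Polynomial.eval_pow, Polynomial.eval_X]
    refine Finset.sum_congr rfl (fun A _ => ?_)
    rw [Finset.sum_comm]
    refine Finset.sum_congr rfl (fun B _ => ?_)
    rw [pow_add, pow_add, ← sum_ind, Finset.mul_sum, Finset.mul_sum]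
    refine Finset.sum_congr rfl (fun c _ => ?_)
    ring
  have hmain := gram n q hq (I := (i : J) × Finset (Sym2 (V i ⊕ Fin n)))
    (Finset.univ.sigma (fun i => (N i).edgeFinset.powerset))
    (fun x => a x.1 * ((-1 : ℝ) ^ x.2.card * q ^ (m x.1 x.2)))
    (fun x => Setoid.comap Sum.inr (comp x.2)) (by
      intro x hx
      rw [Finset.mem_sigma] at hx
      refine comap_nc (N x.1) (hN x.1) x.2 ?_
      have := Finset.mem_powerset.1 hx.2
      intro e he
      have h1 := this (Finset.mem_coe.1 he)
      simpa using h1)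
  rw [Finset.sum_sigma] at hmain
  refine hmain.trans_eq ?_
  refine Finset.sum_congr rfl (fun i _ => ?_)
  have h1 : ∀ A ∈ (N i).edgeFinset.powerset, (∑ y ∈ Finset.univ.sigma (fun i => (N i).edgeFinset.powerset),
      a i * ((-1 : ℝ) ^ A.card * q ^ (m i A)) * (a y.1 * ((-1 : ℝ) ^ y.2.card * q ^ (m y.1 y.2))) *
        q ^ (Nat.card (Quotient (Setoid.comap Sum.inr (comp A) ⊔
          Setoid.comap Sum.inr (comp y.2))))) = ∑ j, ∑ B ∈ (N j).edgeFinset.powerset,
      a i * ((-1 : ℝ) ^ A.card * q ^ (m i A)) * (a j * ((-1 : ℝ) ^ B.card * q ^ (m j B))) *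
        q ^ (Nat.card (Quotient (Setoid.comap Sum.inr (comp A) ⊔
          Setoid.comap Sum.inr (comp B)))) := by
    intro A _
    rw [Finset.sum_sigma]
  rw [Finset.sum_congr rfl h1, Finset.sum_comm]
  refine Finset.sum_congr rfl (fun j _ => ?_)
  rw [hP i j]
  simp only [P, Polynomial.eval_finsetSum, Polynomial.eval_mul, Polynomial.eval_C,
      Polynomial.eval_pow, Polynomial.eval_X, Finset.mul_sum]
  refine Finset.sum_congr rfl (fun A _ => Finset.sum_congr rfl (fun B _ => ?_))
  rw [pow_add, pow_add]
  ring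

end

end Pool.Agent.H207R2.BL
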