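import Mathlib

/-!
Crossing lemma in the closed upper half plane: two paths with interlaced end points on the real
line meet.  (The two preparatory lemmas are those of Helper590.)
-/

set_option autoImplicit false
open Set Filter Topology

namespace Pool.Agent.H207R2.BL

/-- Continuous angle of a nowhere zero function on the plane. -/
theorem exists_lift (P : ℝ × ℝ → ℂ) (hP : Continuous P) (h0 : ∀ p, P p ≠ 0) :
    ∃ Θ : ℝ × ℝ → ℝ, Continuous Θ ∧ ∀ p, P p = (‖P p‖ : ℂ) * Complex.exp (Θ p * Complex.I) := by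
  have hnorm : ∀ p, ‖P p / (‖P p‖ : ℂ)‖ = 1 := by
    intro p
    rw [norm_div, Complex.norm_real, norm_norm]
    exact div_self (norm_ne_zero_iff.2 (h0 p))
  let U : C(ℝ × ℝ, Circle) :=
    ⟨fun p => ⟨P p / (‖P p‖ : ℂ), mem_sphere_zero_iff_norm.2 (hnorm p)⟩, by
      apply Continuous.subtype_mk
      apply Continuous.div hP
      · exact Complex.continuous_ofReal.comp hP.norm
      · intro p
        exact_mod_cast norm_ne_zero_iff.2 (h0 p)⟩
  obtain ⟨e0, he0⟩ : ∃ e0 : ℝ, Circle.exp e0 = U (0, 0) :=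
    ⟨Complex.arg (U (0, 0)), Circle.exp_arg (U (0, 0))⟩
  obtain ⟨Θ, ⟨_, hΘ⟩, _⟩ :=
    Circle.isCoveringMap_exp.existsUnique_continuousMap_lifts U (0, 0) e0 he0
  refine ⟨Θ, Θ.continuous, fun p => ?_⟩
  have h1 : Circle.exp (Θ p) = U p := congrFun hΘ p
  have h2 : Complex.exp ((Θ p : ℝ) * Complex.I) = P p / (‖P p‖ : ℂ) := by
    have h4 : ((Circle.exp (Θ p) : Circle) : ℂ) = ((U p : Circle) : ℂ) := congrArg _ h1
    rw [Circle.coe_exp] at h4
    exact h4
  rw [h2, mul_div_cancel₀]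
  exact_mod_cast norm_ne_zero_iff.2 (h0 p)

/-- From angle `0` to angle `π` with nonnegative sine. -/
theorem sin_band {X : Type*} [TopologicalSpace X] (θ : X → ℝ) (hθ : Continuous θ)
    (S : Set X) (hS : IsPreconnected S) (hsin : ∀ s ∈ S, 0 ≤ Real.sin (θ s)) (p q : X)
    (hp : p ∈ S) (hq : q ∈ S) (hp1 : Real.sin (θ p) = 0) (hp2 : 0 < Real.cos (θ p))
    (hq1 : Real.sin (θ q) = 0) (hq2 : Real.cos (θ q) < 0) : θ q = θ p + Real.pi := by
  have hoc := (hS.image θ hθ.continuousOn).ordConnected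
  have hpi := Real.pi_pos
  have hc1 : Real.cos (θ p) = 1 := by
    have h1 := Real.sin_sq_add_cos_sq (θ p)
    rw [hp1] at h1
    nlinarith
  have hs : ∀ v : ℝ, Real.sin (θ p + v) = Real.sin v := by
    intro v
    rw [Real.sin_add, hp1, hc1]; ring
  have hc : ∀ v : ℝ, Real.cos (θ p + v) = Real.cos v := by
    intro v
    rw [Real.cos_add, hp1, hc1]; ring
  set d : ℝ := θ q - θ p with hd
  have hdq : θ q = θ p + d := by rw [hd]; ring
  have hup : ∀ v, 0 ≤ v → v ≤ d → 0 ≤ Real.sin v := by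
    intro v h1 h2
    have hmem : θ p + v ∈ θ '' S :=
      hoc.out ⟨p, hp, rfl⟩ ⟨q, hq, rfl⟩ ⟨by linarith, by linarith⟩
    obtain ⟨s, hs', hsv⟩ := hmem
    have := hsin s hs'
    rw [hsv, hs] at this
    exact this
  have hdown : ∀ v, d ≤ v → v ≤ 0 → 0 ≤ Real.sin v := by
    intro v h1 h2
    have hmem : θ p + v ∈ θ '' S :=
      hoc.out ⟨q, hq, rfl⟩ ⟨p, hp, rfl⟩ ⟨by linarith, by linarith⟩
    obtain ⟨s, hs', hsv⟩ := hmem
    have := hsin s hs'
    rw [hsv, hs] at this
    exact this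
  have hd0 : 0 ≤ d := by
    by_contra hneg
    push Not at hneg
    have h1 : Real.sin (max d (-Real.pi) / 2) < 0 := by
      apply Real.sin_neg_of_neg_of_neg_pi_lt
      · have : max d (-Real.pi) < 0 := max_lt hneg (by linarith)
        linarith
      · have : -Real.pi ≤ max d (-Real.pi) := le_max_right _ _
        linarith
    have h2 : max d (-Real.pi) < 0 := max_lt hneg (by linarith)
    have h3 : d ≤ max d (-Real.pi) := le_max_left _ _
    have := hdown (max d (-Real.pi) / 2) (by linarith) (by linarith)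
    linarith
  have hd1 : d ≤ Real.pi := by
    by_contra hgt
    push Not at hgt
    have h1 : 0 < min (d - Real.pi) Real.pi := lt_min (by linarith) hpi
    have h2 : min (d - Real.pi) Real.pi ≤ d - Real.pi := min_le_left _ _
    have h3 : min (d - Real.pi) Real.pi ≤ Real.pi := min_le_right _ _
    have h4 := hup (min (d - Real.pi) Real.pi / 2 + Real.pi) (by linarith) (by linarith)
    rw [Real.sin_add_pi] at h4
    have h5 : 0 < Real.sin (min (d - Real.pi) Real.pi / 2) :=
      Real.sin_pos_of_pos_of_lt_pi (by linarith) (by linarith)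
    linarith
  have hdpi : d = Real.pi := by
    by_contra hne
    have hlt : d < Real.pi := lt_of_le_of_ne hd1 hne
    rcases eq_or_lt_of_le hd0 with h | h
    · rw [hdq, ← h, add_zero] at hq2
      linarith
    · have := Real.sin_pos_of_pos_of_lt_pi h hlt
      rw [hdq, hs] at hq1
      linarith
  rw [hdq, hdpi]

/-- From angle `π` to angle `π` with nonnegative sine. -/
theorem sin_band0_aux {X : Type*} [TopologicalSpace X] (θ : X → ℝ) (hθ : Continuous θ)
    (S : Set X) (hS : IsPreconnected S) (hsin : ∀ s ∈ S, 0 ≤ Real.sin (θ s)) (p q : X)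
    (hp : p ∈ S) (hq : q ∈ S) (hp1 : Real.sin (θ p) = 0) (hp2 : Real.cos (θ p) < 0) :
    ¬ θ p < θ q := by
  intro hlt
  have hoc := (hS.image θ hθ.continuousOn).ordConnected
  have hpi := Real.pi_pos
  set e : ℝ := min (θ q - θ p) Real.pi / 2 with he
  have h1 : 0 < min (θ q - θ p) Real.pi := lt_min (by linarith) hpi
  have h2 : min (θ q - θ p) Real.pi ≤ θ q - θ p := min_le_left _ _
  have h3 : min (θ q - θ p) Real.pi ≤ Real.pi := min_le_right _ _
  have hmem : θ p + e ∈ θ '' S :=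
    hoc.out ⟨p, hp, rfl⟩ ⟨q, hq, rfl⟩ ⟨by linarith, by linarith⟩
  obtain ⟨s, hs', hsv⟩ := hmem
  have h4 := hsin s hs'
  rw [hsv, Real.sin_add, hp1, zero_mul, zero_add] at h4
  have h5 : 0 < Real.sin e := Real.sin_pos_of_pos_of_lt_pi (by linarith) (by linarith)
  nlinarith

theorem sin_band0 {X : Type*} [TopologicalSpace X] (θ : X → ℝ) (hθ : Continuous θ)
    (S : Set X) (hS : IsPreconnected S) (hsin : ∀ s ∈ S, 0 ≤ Real.sin (θ s)) (p q : X)
    (hp : p ∈ S) (hq : q ∈ S) (hp1 : Real.sin (θ p) = 0) (hp2 : Real.cos (θ p) < 0)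
    (hq1 : Real.sin (θ q) = 0) (hq2 : Real.cos (θ q) < 0) : θ p = θ q :=
  le_antisymm (not_lt.1 (sin_band0_aux θ hθ S hS hsin q p hq hp hq1 hq2))
    (not_lt.1 (sin_band0_aux θ hθ S hS hsin p q hp hq hp1 hp2))

/-- Two paths in the closed upper half plane with interlaced end points on the real line meet. -/
theorem interlace (α β : ℝ → ℂ) (hα : Continuous α) (hβ : Continuous β)
    (hαi : ∀ s, 0 ≤ (α s).im) (hβi : ∀ s, 0 ≤ (β s).im) (x1 x2 x3 x4 : ℝ)
    (h12 : x1 < x2) (h23 : x2 < x3) (h34 : x3 < x4) (α0 : α 0 = (x1 : ℂ)) (α1 : α 1 = (x3 : ℂ))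
    (β0 : β 0 = (x2 : ℂ)) (β1 : β 1 = (x4 : ℂ)) : ∃ s t, α s = β t := by
  by_contra hcon
  push Not at hcon
  set H : ℝ × ℝ → ℂ := fun q => α q.1 - β q.2 with hH
  have hHc : Continuous H := (hα.comp continuous_fst).sub (hβ.comp continuous_snd)
  have hH0 : ∀ q, H q ≠ 0 := fun q h => hcon q.1 q.2 (sub_eq_zero.1 h)
  obtain ⟨θ, hθ, hHθ⟩ := exists_lift H hHc hH0
  have hn : ∀ q, 0 < ‖H q‖ := fun q => norm_pos_iff.2 (hH0 q)
  have hre : ∀ q, (H q).re = ‖H q‖ * Real.cos (θ q) := by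
    intro q
    conv_lhs => rw [hHθ q]
    rw [Complex.re_ofReal_mul, Complex.exp_ofReal_mul_I_re]
  have him : ∀ q, (H q).im = ‖H q‖ * Real.sin (θ q) := by
    intro q
    conv_lhs => rw [hHθ q]
    rw [Complex.im_ofReal_mul, Complex.exp_ofReal_mul_I_im]
  have sin_nonneg : ∀ q, 0 ≤ (H q).im → 0 ≤ Real.sin (θ q) := by
    intro q h
    rw [him q] at h
    by_contra hc
    push Not at hc
    have := mul_neg_of_pos_of_neg (hn q) hc
    linarith
  have sin_nonpos : ∀ q, (H q).im ≤ 0 → Real.sin (θ q) ≤ 0 := by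
    intro q h
    rw [him q] at h
    by_contra hc
    push Not at hc
    have := mul_pos (hn q) hc
    linarith
  have cos_neg : ∀ q, (H q).re < 0 → Real.cos (θ q) < 0 := by
    intro q h
    rw [hre q] at h
    by_contra hc
    push Not at hc
    have := mul_nonneg (hn q).le hc
    linarith
  have cos_pos : ∀ q, 0 < (H q).re → 0 < Real.cos (θ q) := by
    intro q h
    rw [hre q] at h
    by_contra hc
    push Not at hc
    have := mul_nonpos_of_nonneg_of_nonpos (hn q).le hc
    linarith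
  have v00 : H (0, 0) = ((x1 - x2 : ℝ) : ℂ) := by simp [hH, α0, β0]
  have v01 : H (0, 1) = ((x1 - x4 : ℝ) : ℂ) := by simp [hH, α0, β1]
  have v11 : H (1, 1) = ((x3 - x4 : ℝ) : ℂ) := by simp [hH, α1, β1]
  have v10 : H (1, 0) = ((x3 - x2 : ℝ) : ℂ) := by simp [hH, α1, β0]
  have s0 : ∀ q, (H q).im = 0 → Real.sin (θ q) = 0 := fun q h =>
    le_antisymm (sin_nonpos q h.le) (sin_nonneg q h.ge)
  have s00 := s0 (0, 0) (by rw [v00]; exact Complex.ofReal_im _)
  have s01 := s0 (0, 1) (by rw [v01]; exact Complex.ofReal_im _)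
  have s11 := s0 (1, 1) (by rw [v11]; exact Complex.ofReal_im _)
  have s10 := s0 (1, 0) (by rw [v10]; exact Complex.ofReal_im _)
  have c00 := cos_neg (0, 0) (by rw [v00, Complex.ofReal_re]; linarith)
  have c01 := cos_neg (0, 1) (by rw [v01, Complex.ofReal_re]; linarith)
  have c11 := cos_neg (1, 1) (by rw [v11, Complex.ofReal_re]; linarith)
  have c10 := cos_pos (1, 0) (by rw [v10, Complex.ofReal_re]; linarith)
  -- the edge `s = 0`
  have e1 : -θ (0, 0) = -θ (0, 1) := by
    refine sin_band0 (fun q => -θ q) hθ.neg ((fun t => ((0 : ℝ), t)) '' univ)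
      (isPreconnected_univ.image _ (by fun_prop)) ?_ _ _ ⟨0, trivial, rfl⟩ ⟨1, trivial, rfl⟩
      (by simp [Real.sin_neg, s00]) (by simpa using c00) (by simp [Real.sin_neg, s01])
      (by simpa using c01)
    rintro _ ⟨t, _, rfl⟩
    have h : (H (0, t)).im ≤ 0 := by
      simp only [hH, α0, Complex.sub_im, Complex.ofReal_im]
      linarith [hβi t]
    have := sin_nonpos _ h
    rw [Real.sin_neg]
    linarith
  -- the edge `t = 1`
  have e2 : θ (0, 1) = θ (1, 1) := by
    refine sin_band0 θ hθ ((fun s => (s, (1 : ℝ))) '' univ)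
      (isPreconnected_univ.image _ (by fun_prop)) ?_ _ _ ⟨0, trivial, rfl⟩ ⟨1, trivial, rfl⟩
      s01 c01 s11 c11
    rintro _ ⟨s, _, rfl⟩
    apply sin_nonneg
    simp only [hH, β1, Complex.sub_im, Complex.ofReal_im]
    linarith [hαi s]
  -- the edge `s = 1`
  have e3 : -θ (1, 1) = -θ (1, 0) + Real.pi := by
    refine sin_band (fun q => -θ q) hθ.neg ((fun t => ((1 : ℝ), t)) '' univ)
      (isPreconnected_univ.image _ (by fun_prop)) ?_ _ _ ⟨0, trivial, rfl⟩ ⟨1, trivial, rfl⟩
      (by simp [Real.sin_neg, s10]) (by simpa using c10) (by simp [Real.sin_neg, s11])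
      (by simpa using c11)
    rintro _ ⟨t, _, rfl⟩
    have h : (H (1, t)).im ≤ 0 := by
      simp only [hH, α1, Complex.sub_im, Complex.ofReal_im]
      linarith [hβi t]
    have := sin_nonpos _ h
    rw [Real.sin_neg]
    linarith
  -- the edge `t = 0`
  have e4 : θ (0, 0) = θ (1, 0) + Real.pi := by
    refine sin_band θ hθ ((fun s => (s, (0 : ℝ))) '' univ)
      (isPreconnected_univ.image _ (by fun_prop)) ?_ _ _ ⟨1, trivial, rfl⟩ ⟨0, trivial, rfl⟩
      s10 c10 s00 c00
    rintro _ ⟨s, _, rfl⟩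
    apply sin_nonneg
    simp only [hH, β0, Complex.sub_im, Complex.ofReal_im]
    linarith [hαi s]
  have hpi := Real.pi_pos
  linarith

end Pool.Agent.H207R2.BL
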