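import Mathlib

/-!
Definitions: chromatic polynomials, drawings in the plane, halves and their gluing.
-/

set_option autoImplicit false

namespace Pool.Agent.H207R2.BL

open Polynomial

/-- `p` is the chromatic polynomial of `G`: at every natural number `k` its value is the number of
proper colourings of `G` with `k` colours. -/
def IsChrom {V : Type} (G : SimpleGraph V) (p : ℝ[X]) : Prop :=
  ∀ k : ℕ, p.eval (k : ℝ) = (Nat.card (G.Coloring (Fin k)) : ℝ)

/-- A graph with interior vertices `V` and boundary vertices `0, …, n-1` (in this order) has no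
cross: for `i < j < k < l`, every walk from the boundary vertex `i` to the boundary vertex `k` has a
vertex in common with every walk from `j` to `l`. -/
def Crossless {V : Type} {n : ℕ} (N : SimpleGraph (V ⊕ Fin n)) : Prop :=
  ∀ i j k l : Fin n, i < j → j < k → k < l →
    ∀ (p : N.Walk (Sum.inr i) (Sum.inr k)) (p' : N.Walk (Sum.inr j) (Sum.inr l)),
      ∃ v, v ∈ p.support ∧ v ∈ p'.support

/-- The union of two graphs `N` and `M` with the same boundary vertices `0, …, n-1` and disjoint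
interiors. -/
def glue {V W : Type} {n : ℕ} (N : SimpleGraph (V ⊕ Fin n)) (M : SimpleGraph (W ⊕ Fin n)) :
    SimpleGraph ((V ⊕ W) ⊕ Fin n) :=
  SimpleGraph.map (Sum.map Sum.inl id) N ⊔ SimpleGraph.map (Sum.map Sum.inr id) M

/-- A drawing of `G` in the plane: vertices are distinct points, every edge is an arc (an injective
continuous curve) joining its two ends and avoiding all vertices in between, and arcs of different
edges do not meet in between. -/
def IsDrawing {V : Type} (G : SimpleGraph V) (f : V → ℝ × ℝ) (γ : V → V → ℝ → ℝ × ℝ) : Prop :=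
  Function.Injective f ∧
  (∀ u v : V, G.Adj u v →
    ContinuousOn (γ u v) (Set.Icc (0:ℝ) 1) ∧ Set.InjOn (γ u v) (Set.Icc (0:ℝ) 1) ∧
    γ u v 0 = f u ∧ γ u v 1 = f v ∧
    ∀ t ∈ Set.Ioo (0:ℝ) 1, ∀ w : V, γ u v t ≠ f w) ∧
  (∀ u v u' v' : V, G.Adj u v → G.Adj u' v' → s(u, v) ≠ s(u', v') →
    ∀ t ∈ Set.Ioo (0:ℝ) 1, ∀ t' ∈ Set.Ioo (0:ℝ) 1, γ u v t ≠ γ u' v' t')

/-- A graph with boundary vertices `0, …, n-1` which is drawn in the closed upper half plane with
its boundary vertices on the real axis in increasing order. -/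
def DrawnInHalfPlane {V : Type} {n : ℕ} (N : SimpleGraph (V ⊕ Fin n)) : Prop :=
  ∃ (f : V ⊕ Fin n → ℝ × ℝ) (γ : V ⊕ Fin n → V ⊕ Fin n → ℝ → ℝ × ℝ),
    IsDrawing N f γ ∧ (∀ v, 0 ≤ (f v).2) ∧
    (∀ u v, N.Adj u v → ∀ t ∈ Set.Icc (0 : ℝ) 1, 0 ≤ (γ u v t).2) ∧
    (∀ i : Fin n, (f (Sum.inr i)).2 = 0) ∧
    (∀ i j : Fin n, i < j → (f (Sum.inr i)).1 < (f (Sum.inr j)).1)

/-- `G` is drawn in the plane, the reflection in the `x`-axis is a symmetry of `G`, and no edge
crosses the axis: an edge whose two ends are in the closed upper half plane is drawn there, and no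
edge joins the open upper to the open lower half plane. -/
structure MirrorDrawing {V : Type} (G : SimpleGraph V) (f : V → ℝ × ℝ)
    (γ : V → V → ℝ → ℝ × ℝ) : Prop where
  drawing : IsDrawing G f γ
  mirror : ∃ σ : V → V, (∀ v, f (σ v) = ((f v).1, -(f v).2)) ∧
    ∀ u v, G.Adj u v → G.Adj (σ u) (σ v)
  upper : ∀ u v, G.Adj u v → 0 ≤ (f u).2 → 0 ≤ (f v).2 →
    ∀ t ∈ Set.Icc (0 : ℝ) 1, 0 ≤ (γ u v t).2
  noCross : ∀ u v, G.Adj u v → 0 < (f u).2 → 0 ≤ (f v).2

/-- `B` is a nonempty set of vertices, any two of which are joined by a walk inside `B`. -/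
def ConnSet {V : Type} (G : SimpleGraph V) (B : Set V) : Prop :=
  B.Nonempty ∧ ∀ x ∈ B, ∀ y ∈ B, ∃ w : G.Walk x y, ∀ z ∈ w.support, z ∈ B

/-- Every (nonempty) minor of `G` has a vertex of degree at most `d`: whenever `m ≥ 1` pairwise
disjoint connected sets of vertices are given, one of them is joined by edges of `G` to at most
`d` of the others. -/
def MinorDegLe (d : ℕ) {V : Type} (G : SimpleGraph V) : Prop :=
  ∀ (m : ℕ) (B : Fin m → Set V), 0 < m → (∀ i, ConnSet G (B i)) →
    (∀ i j, i ≠ j → Disjoint (B i) (B j)) →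
    ∃ i, {j | j ≠ i ∧ ∃ x ∈ B i, ∃ y ∈ B j, G.Adj x y}.ncard ≤ d

end Pool.Agent.H207R2.BL
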