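import Pool.Agent.H207R2.BL.Plane

/-!
Mirror symmetric plane graphs.
-/

set_option autoImplicit false
set_option linter.unusedSectionVars false

namespace Pool.Agent.H207R2.BL

open Polynomial Set

theorem mirror_ineq {V : Type} [Finite V] (G : SimpleGraph V) (f : V → ℝ × ℝ)
    (γ : V → V → ℝ → ℝ × ℝ) (h : MirrorDrawing G f γ) (p r : ℝ[X]) (hp : IsChrom G p)
    (hr : IsChrom (G.induce {v | 0 ≤ (f v).2}) r) (q : ℝ) (hq : 4 ≤ q) :
    r.eval q ^ 2 ≤ q ^ (Nat.card {v // (f v).2 = 0}) * p.eval q := by
  classical
  obtain ⟨hd, ⟨σ, hσ, hadj⟩, hup, hno⟩ := h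
  have hf := hd.1
  have hσσ : ∀ v, σ (σ v) = v := by
    intro v
    apply hf
    rw [hσ, hσ]
    simp
  have hσinj : Function.Injective σ := fun a b hab => by
    rw [← hσσ a, ← hσσ b, hab]
  have hadj' : ∀ u v, G.Adj (σ u) (σ v) → G.Adj u v := by
    intro u v h
    have := hadj _ _ h
    rwa [hσσ, hσσ] at this
  -- order the vertices on the axis
  let Bv := {v : V // (f v).2 = 0}
  have : Finite Bv := inferInstance
  have : Fintype Bv := Fintype.ofFinite Bv
  have hinj : Function.Injective (fun v : Bv => (f v.1).1) := by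
    intro a b hab
    apply Subtype.ext
    apply hf
    exact Prod.ext hab (by rw [a.2, b.2])
  let _ : LinearOrder Bv := LinearOrder.lift' (fun v : Bv => (f v.1).1) hinj
  set n := Nat.card Bv with hn
  have hcard : Fintype.card Bv = n := by rw [hn, Nat.card_eq_fintype_card]
  let e : Fin n ≃o Bv := Fintype.orderIsoFinOfCardEq Bv hcard
  have he : ∀ i j : Fin n, i < j → (f (e i).1).1 < (f (e j).1).1 := by
    intro i j hij
    exact e.lt_iff_lt.2 hij
  have hσe : ∀ i : Fin n, σ (e i).1 = (e i).1 := by
    intro i
    apply hf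
    rw [hσ]
    exact Prod.ext rfl (by rw [(e i).2]; simp)
  let U := {v : V // 0 < (f v).2}
  let φ : U ⊕ Fin n → V := Sum.elim (fun u => u.1) (fun i => (e i).1)
  have hφinj : Function.Injective φ := by
    rintro (a | a) (b | b) hab
    · exact congrArg Sum.inl (Subtype.ext hab)
    · exfalso
      have h1 : a.1 = (e b).1 := hab
      have h2 := a.2
      rw [h1, (e b).2] at h2
      exact lt_irrefl _ h2
    · exfalso
      have h1 : (e a).1 = b.1 := hab
      have h2 := b.2
      rw [← h1, (e a).2] at h2
      exact lt_irrefl _ h2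
    · exact congrArg Sum.inr (e.injective (Subtype.ext hab))
  have hφ0 : ∀ a, 0 ≤ (f (φ a)).2 := by
    rintro (a | a)
    · exact a.2.le
    · exact (e a).2.ge
  let N : SimpleGraph (U ⊕ Fin n) := G.comap φ
  have hNadj : ∀ a b, N.Adj a b ↔ G.Adj (φ a) (φ b) := fun a b => Iff.rfl
  have hNd : IsDrawing N (fun a => f (φ a)) (fun a b => γ (φ a) (φ b)) := by
    refine ⟨hf.comp hφinj, ?_, ?_⟩
    · intro u v huv
      obtain ⟨h1, h2, h3, h4, h5⟩ := hd.2.1 _ _ huv
      exact ⟨h1, h2, h3, h4, fun t ht w => h5 t ht _⟩
    · intro u v u' v' huv huv' hne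
      refine hd.2.2 _ _ _ _ huv huv' ?_
      intro h
      apply hne
      have := Sym2.map.injective hφinj (a₁ := s(u, v)) (a₂ := s(u', v')) (by simpa using h)
      exact this
  have hNc : Crossless N := by
    refine crossless_of_drawing N _ _ hNd hφ0 ?_ ?_ ?_
    · intro u v huv
      exact hup _ _ huv (hφ0 u) (hφ0 v)
    · intro i
      exact (e i).2
    · intro i j hij
      exact he i j hij
  -- the two isomorphisms
  have hr' : IsChrom N r := by
    let ψ : U ⊕ Fin n → {v : V | 0 ≤ (f v).2} := fun a => ⟨φ a, hφ0 a⟩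
    have hψ : Function.Bijective ψ := by
      constructor
      · intro a b hab
        exact hφinj (congrArg Subtype.val hab)
      · rintro ⟨v, hv⟩
        rcases lt_or_eq_of_le (show 0 ≤ (f v).2 from hv) with h1 | h1
        · exact ⟨Sum.inl ⟨v, h1⟩, rfl⟩
        · refine ⟨Sum.inr (e.symm ⟨v, h1.symm⟩), ?_⟩
          apply Subtype.ext
          change (e (e.symm ⟨v, h1.symm⟩)).1 = v
          rw [e.apply_symm_apply]
    let iso : N ≃g G.induce {v | 0 ≤ (f v).2} :=
      { Equiv.ofBijective ψ hψ with
        map_rel_iff' := by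
          intro a b
          exact Iff.rfl }
    exact hr.of_iso iso.symm
  have hp' : IsChrom (glue N N) p := by
    let Φ : (U ⊕ U) ⊕ Fin n → V :=
      Sum.elim (Sum.elim (fun u => u.1) (fun u => σ u.1)) (fun i => (e i).1)
    have hσneg : ∀ u : U, (f (σ u.1)).2 < 0 := by
      intro u
      rw [hσ]
      have := u.2
      simpa using this
    have hΦ : Function.Bijective Φ := by
      constructor
      · rintro ((a | a) | a) ((b | b) | b) hab
        · exact congrArg (fun x => Sum.inl (Sum.inl x)) (Subtype.ext hab)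
        · exfalso
          have h1 : a.1 = σ b.1 := hab
          have h2 := hσneg b
          rw [← h1] at h2
          exact lt_asymm a.2 h2
        · exfalso
          have h1 : a.1 = (e b).1 := hab
          have h2 := a.2
          rw [h1, (e b).2] at h2
          exact lt_irrefl _ h2
        · exfalso
          have h1 : σ a.1 = b.1 := hab
          have h2 := hσneg a
          rw [h1] at h2
          exact lt_asymm b.2 h2
        · exact congrArg (fun x => Sum.inl (Sum.inr x)) (Subtype.ext (hσinj hab))
        · exfalso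
          have h1 : σ a.1 = (e b).1 := hab
          have h2 := hσneg a
          rw [h1, (e b).2] at h2
          exact lt_irrefl _ h2
        · exfalso
          have h1 : (e a).1 = b.1 := hab
          have h2 := b.2
          rw [← h1, (e a).2] at h2
          exact lt_irrefl _ h2
        · exfalso
          have h1 : (e a).1 = σ b.1 := hab
          have h2 := hσneg b
          rw [← h1, (e a).2] at h2
          exact lt_irrefl _ h2
        · exact congrArg Sum.inr (e.injective (Subtype.ext hab))
      · intro v
        rcases lt_trichotomy 0 (f v).2 with h1 | h1 | h1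
        · exact ⟨Sum.inl (Sum.inl ⟨v, h1⟩), rfl⟩
        · refine ⟨Sum.inr (e.symm ⟨v, h1.symm⟩), ?_⟩
          change (e (e.symm ⟨v, h1.symm⟩)).1 = v
          rw [e.apply_symm_apply]
        · refine ⟨Sum.inl (Sum.inr ⟨σ v, ?_⟩), ?_⟩
          · rw [hσ]
            simpa using h1
          · exact hσσ v
    have hΦ1 : ∀ a : U ⊕ Fin n, Φ (Sum.map Sum.inl id a) = φ a := by
      rintro (a | a) <;> rfl
    have hΦ2 : ∀ a : U ⊕ Fin n, Φ (Sum.map Sum.inr id a) = σ (φ a) := by
      rintro (a | a)
      · rfl
      · exact (hσe a).symm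
    have i1 : Function.Injective (Sum.map Sum.inl id : U ⊕ Fin n → (U ⊕ U) ⊕ Fin n) :=
      Sum.map_injective.2 ⟨Sum.inl_injective, Function.injective_id⟩
    have i2 : Function.Injective (Sum.map Sum.inr id : U ⊕ Fin n → (U ⊕ U) ⊕ Fin n) :=
      Sum.map_injective.2 ⟨Sum.inr_injective, Function.injective_id⟩
    have first : ∀ a b : U ⊕ Fin n, G.Adj (Φ (Sum.map Sum.inl id a)) (Φ (Sum.map Sum.inl id b)) →
        (glue N N).Adj (Sum.map Sum.inl id a) (Sum.map Sum.inl id b) := by
      intro a b h
      rw [hΦ1, hΦ1] at h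
      exact Or.inl ⟨i1.ne (fun hab => h.ne (by rw [hab])), a, b, h, rfl, rfl⟩
    have second : ∀ a b : U ⊕ Fin n, G.Adj (Φ (Sum.map Sum.inr id a)) (Φ (Sum.map Sum.inr id b)) →
        (glue N N).Adj (Sum.map Sum.inr id a) (Sum.map Sum.inr id b) := by
      intro a b h
      rw [hΦ2, hΦ2] at h
      have h' := hadj' _ _ h
      exact Or.inr ⟨i2.ne (fun hab => h.ne (by rw [hab])), a, b, h', rfl, rfl⟩
    have nomix : ∀ (a b : U), ¬ G.Adj a.1 (σ b.1) := by
      intro a b h
      have h1 := hno _ _ h a.2
      exact absurd (hσneg b) (not_lt.2 h1)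
    let iso : glue N N ≃g G :=
      { Equiv.ofBijective Φ hΦ with
        map_rel_iff' := by
          intro x y
          change G.Adj (Φ x) (Φ y) ↔ (glue N N).Adj x y
          constructor
          · intro h
            rcases x with (a | a) | a <;> rcases y with (b | b) | b
            · exact first (Sum.inl a) (Sum.inl b) h
            · exact absurd h (nomix a b)
            · exact first (Sum.inl a) (Sum.inr b) h
            · exact absurd h.symm (nomix b a)
            · exact second (Sum.inl a) (Sum.inl b) h
            · exact second (Sum.inl a) (Sum.inr b) h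
            · exact first (Sum.inr a) (Sum.inl b) h
            · exact second (Sum.inr a) (Sum.inl b) h
            · exact first (Sum.inr a) (Sum.inr b) h
          · rintro (⟨_, a, b, hab, rfl, rfl⟩ | ⟨_, a, b, hab, rfl, rfl⟩)
            · rw [hΦ1, hΦ1]
              exact hab
            · rw [hΦ2, hΦ2]
              exact hadj _ _ hab }
    exact hp.of_iso iso.symm
  exact double_ineq N hNc p r hp' hr' q hq

end Pool.Agent.H207R2.BL
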