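import Pool.Agent.H207R2.BL.Cross
import Pool.Agent.H207R2.BL.Chrom

/-!
Halves drawn in the closed upper half plane are crossless, and mirror symmetric plane graphs.
-/

set_option autoImplicit false
set_option linter.unusedSectionVars false

namespace Pool.Agent.H207R2.BL

open Polynomial Set

section

variable {V : Type} {G : SimpleGraph V} {f : V → ℝ × ℝ} {γ : V → V → ℝ → ℝ × ℝ}

/-- the part of the drawing spanned by a set of vertices -/
def Dr (G : SimpleGraph V) (f : V → ℝ × ℝ) (γ : V → V → ℝ → ℝ × ℝ) (S : Set V) :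
    Set (ℝ × ℝ) :=
  {z | (∃ v ∈ S, z = f v) ∨ ∃ u ∈ S, ∃ v ∈ S, G.Adj u v ∧ ∃ t ∈ Ioo (0 : ℝ) 1, z = γ u v t}

theorem Dr_disjoint (h : IsDrawing G f γ) (S T : Set V) (hST : ∀ v, v ∈ S → v ∉ T)
    (z : ℝ × ℝ) (h1 : z ∈ Dr G f γ S) (h2 : z ∈ Dr G f γ T) : False := by
  obtain ⟨hf, he, hc⟩ := h
  rcases h1 with ⟨v, hv, rfl⟩ | ⟨u, hu, v, hv, huv, t, ht, rfl⟩
  · rcases h2 with ⟨w, hw, h2⟩ | ⟨w, hw, x, hx, hwx, t, ht, h2⟩
    · exact hST v hv (hf h2 ▸ hw)
    · exact (he w x hwx).2.2.2.2 t ht v h2.symm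
  · rcases h2 with ⟨w, hw, h2⟩ | ⟨w, hw, x, hx, hwx, t', ht', h2⟩
    · exact (he u v huv).2.2.2.2 t ht w h2
    · refine hc u v w x huv hwx ?_ t ht t' ht' h2
      intro h
      rcases Sym2.eq_iff.1 h with ⟨h, _⟩ | ⟨h, _⟩
      · exact hST u hu (h ▸ hw)
      · exact hST u hu (h ▸ hx)

theorem Dr_joined (h : IsDrawing G f γ) (S : Set V) {u v : V} (p : G.Walk u v)
    (hp : ∀ w ∈ p.support, w ∈ S) : JoinedIn (Dr G f γ S) (f u) (f v) := by
  induction p with
  | nil =>
    exact JoinedIn.refl (Or.inl ⟨_, hp _ (by simp), rfl⟩)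
  | @cons a b c hab p ih =>
    have ha : a ∈ S := hp a (by simp)
    have hb : b ∈ S := hp b (by simp)
    refine JoinedIn.trans ?_ (ih (fun w hw => hp w (by simp [hw])))
    obtain ⟨hcont, _, h0, h1, _⟩ := h.2.1 a b hab
    let P : Path (f a) (f b) :=
      { toFun := fun t : unitInterval => γ a b t
        continuous_toFun := continuousOn_iff_continuous_domRestrict.1 hcont
        source' := by simpa using h0
        target' := by simpa using h1 }
    refine ⟨P, ?_⟩
    intro t
    change γ a b t ∈ _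
    rcases eq_or_lt_of_le t.2.1 with ht | ht
    · left
      refine ⟨a, ha, ?_⟩
      rw [← ht, h0]
    · rcases eq_or_lt_of_le t.2.2 with ht' | ht'
      · left
        refine ⟨b, hb, ?_⟩
        rw [ht', h1]
      · right
        exact ⟨a, ha, b, hb, hab, t, ⟨ht, ht'⟩, rfl⟩

end

theorem crossless_of_drawing {V : Type} {n : ℕ} (N : SimpleGraph (V ⊕ Fin n))
    (f : V ⊕ Fin n → ℝ × ℝ) (γ : V ⊕ Fin n → V ⊕ Fin n → ℝ → ℝ × ℝ)
    (h : IsDrawing N f γ) (hv : ∀ v, 0 ≤ (f v).2)
    (he : ∀ u v, N.Adj u v → ∀ t ∈ Icc (0 : ℝ) 1, 0 ≤ (γ u v t).2)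
    (hb : ∀ i : Fin n, (f (Sum.inr i)).2 = 0)
    (hx : ∀ i j : Fin n, i < j → (f (Sum.inr i)).1 < (f (Sum.inr j)).1) : Crossless N := by
  intro i j k l hij hjk hkl p p'
  by_contra hcon
  push Not at hcon
  let S : Set (V ⊕ Fin n) := {v | v ∈ p.support}
  let T : Set (V ⊕ Fin n) := {v | v ∈ p'.support}
  have j1 := Dr_joined h S p (fun w hw => hw)
  have j2 := Dr_joined h T p' (fun w hw => hw)
  have hup : ∀ (X : Set (V ⊕ Fin n)) z, z ∈ Dr N f γ X → 0 ≤ z.2 := by
    rintro X z (⟨v, _, rfl⟩ | ⟨u, _, v, _, huv, t, ht, rfl⟩)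
    · exact hv v
    · exact he u v huv t ⟨ht.1.le, ht.2.le⟩
  let A : ℝ → ℝ × ℝ := fun s => j1.somePath.extend s
  let B : ℝ → ℝ × ℝ := fun s => j2.somePath.extend s
  have hA : ∀ s, A s ∈ Dr N f γ S := by
    intro s
    have := j1.somePath_mem (Set.projIcc 0 1 zero_le_one s)
    exact this
  have hB : ∀ s, B s ∈ Dr N f γ T := by
    intro s
    have := j2.somePath_mem (Set.projIcc 0 1 zero_le_one s)
    exact this
  have hAc : Continuous A := j1.somePath.extend.continuous
  have hBc : Continuous B := j2.somePath.extend.continuous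
  let c : ℝ × ℝ → ℂ := fun z => ⟨z.1, z.2⟩
  have hcc : Continuous c := Complex.equivRealProdCLM.symm.continuous
  have hA0 : A 0 = f (Sum.inr i) := by simp [A]
  have hA1 : A 1 = f (Sum.inr k) := by simp [A]
  have hB0 : B 0 = f (Sum.inr j) := by simp [B]
  have hB1 : B 1 = f (Sum.inr l) := by simp [B]
  have hcb : ∀ i : Fin n, c (f (Sum.inr i)) = (((f (Sum.inr i)).1 : ℝ) : ℂ) := by
    intro i
    apply Complex.ext
    · simp [c]
    · simp [c, hb i]
  obtain ⟨s, t, hst⟩ := interlace (fun s => c (A s)) (fun s => c (B s)) (hcc.comp hAc)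
    (hcc.comp hBc) (fun s => hup S _ (hA s)) (fun s => hup T _ (hB s))
    (f (Sum.inr i)).1 (f (Sum.inr j)).1 (f (Sum.inr k)).1 (f (Sum.inr l)).1
    (hx i j hij) (hx j k hjk) (hx k l hkl)
    (by rw [hA0, hcb]) (by rw [hA1, hcb]) (by rw [hB0, hcb]) (by rw [hB1, hcb])
  have hst' : A s = B t := by
    have h1 := congrArg Complex.re hst
    have h2 := congrArg Complex.im hst
    exact Prod.ext h1 h2
  refine Dr_disjoint h S T ?_ (A s) (hA s) (hst' ▸ hB t)
  intro v hvS hvT
  exact hcon v hvS hvT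

/-- Colourings transported along an isomorphism. -/
theorem IsChrom.of_iso {V W : Type} {G : SimpleGraph V} {H : SimpleGraph W} (e : G ≃g H)
    {p : ℝ[X]} (hp : IsChrom G p) : IsChrom H p := by
  intro k
  rw [hp k]
  congr 1
  exact Nat.card_congr
    { toFun := fun c => c.comp e.symm.toHom
      invFun := fun c => c.comp e.toHom
      left_inv := fun c => by ext v; simp
      right_inv := fun c => by ext v; simp }

/-- The half without interior vertices and edges. -/
def emptyHalf (n : ℕ) : SimpleGraph (Empty ⊕ Fin n) := ⊥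

theorem emptyHalf_crossless (n : ℕ) : Crossless (emptyHalf n) := by
  intro i j k l hij hjk hkl p p'
  exfalso
  cases p with
  | nil => exact absurd (hij.trans hjk) (lt_irrefl _)
  | cons h _ => exact h

theorem chrom_empty (n : ℕ) : IsChrom (glue (emptyHalf n) (emptyHalf n)) (X ^ n) := by
  classical
  intro k
  rw [card_coloring]
  have h : ∀ g : (Empty ⊕ Empty) ⊕ Fin n → Fin k, pr (glue (emptyHalf n) (emptyHalf n)) g = 1 := by
    intro g
    unfold pr
    rw [if_pos]
    intro a b hab
    exfalso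
    rcases hab with ⟨_, _, _, h, _⟩ | ⟨_, _, _, h, _⟩ <;> exact h
  rw [Finset.sum_congr rfl (fun g _ => h g)]
  simp

/-- Gluing an empty half does not change the graph. -/
def glueEmpty {V : Type} {n : ℕ} (N : SimpleGraph (V ⊕ Fin n)) :
    N ≃g glue N (emptyHalf n) where
  toFun := Sum.map Sum.inl id
  invFun := Sum.map (fun x => x.elim id (fun e => e.elim)) id
  left_inv := by rintro (v | i) <;> rfl
  right_inv := by
    rintro ((v | e) | i)
    · rfl
    · exact e.elim
    · rfl
  map_rel_iff' := by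
    have i1 : Function.Injective (Sum.map Sum.inl id : V ⊕ Fin n → (V ⊕ Empty) ⊕ Fin n) :=
      Sum.map_injective.2 ⟨Sum.inl_injective, Function.injective_id⟩
    intro a b
    constructor
    · rintro (⟨_, a', b', h, h1, h2⟩ | ⟨_, _, _, h, _⟩)
      · have h1' := i1 h1
        have h2' := i1 h2
        rwa [← h1', ← h2']
      · exact h.elim
    · intro h
      exact Or.inl ⟨i1.ne h.ne, a, b, h, rfl, rfl⟩

theorem quad_ineq {A B C : ℝ} (hC : 0 < C)
    (h : ∀ x y : ℝ, 0 ≤ x * x * A + x * y * B + y * x * B + y * y * C) : B ^ 2 ≤ C * A := by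
  have := h C (-B)
  nlinarith

/-- The main inequality for a crossless half. -/
theorem double_ineq {V : Type} [Finite V] {n : ℕ} (N : SimpleGraph (V ⊕ Fin n))
    (hN : Crossless N) (p r : ℝ[X]) (hp : IsChrom (glue N N) p) (hr : IsChrom N r)
    (q : ℝ) (hq : 4 ≤ q) : r.eval q ^ 2 ≤ q ^ n * p.eval q := by
  have hr1 : IsChrom (glue N (emptyHalf n)) r := hr.of_iso (glueEmpty N)
  have hr2 : IsChrom (glue (emptyHalf n) N) r := by
    intro k
    rw [hr1 k]
    have : Fintype V := Fintype.ofFinite V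
    classical
    rw [card_glue, card_glue]
    exact Finset.sum_congr rfl (fun c _ => mul_comm _ _)
  have hq0 : 0 < q := by linarith
  apply quad_ineq (pow_pos hq0 n)
  intro x y
  let VV : Bool → Type := fun b => if b then V else Empty
  have hfin : ∀ b, Finite (VV b) := by
    intro b
    cases b
    · exact inferInstanceAs (Finite Empty)
    · exact inferInstanceAs (Finite V)
  let NN : ∀ b, SimpleGraph (VV b ⊕ Fin n) := fun b =>
    match b with
    | true => N
    | false => emptyHalf n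
  have hNN : ∀ b, Crossless (NN b) := by
    intro b
    cases b
    · exact emptyHalf_crossless n
    · exact hN
  let P : Bool → Bool → ℝ[X] := fun a b =>
    match a, b with
    | true, true => p
    | true, false => r
    | false, true => r
    | false, false => X ^ n
  have hP : ∀ a b, IsChrom (glue (NN a) (NN b)) (P a b) := by
    intro a b
    cases a <;> cases b
    · exact chrom_empty n
    · exact hr2
    · exact hr1
    · exact hp
  have := psd VV NN hNN P hP q hq (fun b => if b then x else y)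
  simp only [Fintype.sum_bool, P, if_true, Bool.false_eq_true, if_false, eval_pow, eval_X] at this
  linarith

end Pool.Agent.H207R2.BL
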