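import Pool.Agent.H207R2.BL.TL

/-!
Two representations of the generators: on functions of colourings (integer parameter), and the
vertex representation on functions of spins (real parameter `≥ 4`).
-/

set_option autoImplicit false
set_option linter.unusedSectionVars false

namespace Pool.Agent.H207R2.BL

open Function

section general

variable {ι κ : Type} [Fintype ι] [DecidableEq ι] [Fintype κ] [DecidableEq κ]

abbrev Fn (ι κ : Type) := (ι → κ) → ℝ

/-- The standard inner product. -/
def ip (f g : Fn ι κ) : ℝ := ∑ s, f s * g s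

theorem ip_comm (f g : Fn ι κ) : ip f g = ip g f := by
  unfold ip
  exact Finset.sum_congr rfl (fun s _ => mul_comm _ _)

/-- change of variables `(c,x) ↦ (update c i x, c i)` -/
theorem sum_update (i : ι) (F : (ι → κ) → (ι → κ) → ℝ) :
    ∑ c : ι → κ, ∑ x : κ, F c (update c i x) = ∑ c : ι → κ, ∑ x : κ, F (update c i x) c := by
  rw [← Fintype.sum_prod_type', ← Fintype.sum_prod_type']
  let T : (ι → κ) × κ → (ι → κ) × κ := fun p => (update p.1 i p.2, p.1 i)
  have hT : Function.Involutive T := by
    rintro ⟨c, x⟩
    simp [T]
  refine Fintype.sum_equiv hT.toPerm _ _ ?_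
  rintro ⟨c, x⟩
  simp [T, Function.Involutive.toPerm]

theorem sum_update' (i : ι) (F : (ι → κ) → ℝ) :
    ∑ c : ι → κ, ∑ x : κ, F (update c i x) = (Fintype.card κ : ℝ) * ∑ c, F c := by
  rw [sum_update i (fun _ d => F d)]
  simp [Finset.mul_sum]

/-- detach -/
def Cop (i : ι) : Fn ι κ →ₗ[ℝ] Fn ι κ where
  toFun f c := ∑ x, f (update c i x)
  map_add' f g := by ext c; simp [Finset.sum_add_distrib]
  map_smul' r f := by ext c; simp [Finset.mul_sum]

/-- join -/
def Jop (a b : ι) : Fn ι κ →ₗ[ℝ] Fn ι κ where
  toFun f c := if c a = c b then f c else 0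
  map_add' f g := by ext c; by_cases h : c a = c b <;> simp [h]
  map_smul' r f := by ext c; by_cases h : c a = c b <;> simp [h]

theorem Cop_apply (i : ι) (f : Fn ι κ) (c : ι → κ) : Cop i f c = ∑ x, f (update c i x) := rfl
theorem Jop_apply (a b : ι) (f : Fn ι κ) (c : ι → κ) :
    Jop a b f c = if c a = c b then f c else 0 := rfl

theorem Jop_comm (a b : ι) : (Jop a b : Fn ι κ →ₗ[ℝ] Fn ι κ) = Jop b a := by
  refine LinearMap.ext (fun f => funext (fun c => ?_))
  simp [Jop_apply, eq_comm]

theorem Cop_sq (i : ι) :
    (Cop i * Cop i : Module.End ℝ (Fn ι κ)) = (Fintype.card κ : ℝ) • Cop i := by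
  refine LinearMap.ext (fun f => funext (fun c => ?_))
  simp [Module.End.mul_apply, Cop_apply]

theorem Jop_sq (a b : ι) : (Jop a b * Jop a b : Module.End ℝ (Fn ι κ)) = Jop a b := by
  refine LinearMap.ext (fun f => funext (fun c => ?_))
  by_cases h : c a = c b <;> simp [Module.End.mul_apply, Jop_apply, h]

theorem CJC (a b : ι) (h : a ≠ b) :
    (Cop a * Jop a b * Cop a : Module.End ℝ (Fn ι κ)) = Cop a := by
  refine LinearMap.ext (fun f => funext (fun c => ?_))
  simp only [Module.End.mul_apply, Cop_apply, Jop_apply, update_self, update_of_ne h.symm,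
    update_idem]
  rw [Finset.sum_ite_eq' Finset.univ (c b)]
  simp

theorem JCJ (a b : ι) (h : a ≠ b) :
    (Jop a b * Cop a * Jop a b : Module.End ℝ (Fn ι κ)) = Jop a b := by
  refine LinearMap.ext (fun f => funext (fun c => ?_))
  simp only [Module.End.mul_apply, Cop_apply, Jop_apply, update_self, update_of_ne h.symm]
  rw [Finset.sum_ite_eq' Finset.univ (c b)]
  by_cases hc : c a = c b
  · simp [← hc]
  · simp [hc]

theorem CC (a b : ι) : (Cop a * Cop b : Module.End ℝ (Fn ι κ)) = Cop b * Cop a := by
  by_cases h : a = b
  · rw [h]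
  · refine LinearMap.ext (fun f => funext (fun c => ?_))
    simp only [Module.End.mul_apply, Cop_apply]
    rw [Finset.sum_comm]
    refine Finset.sum_congr rfl (fun x _ => Finset.sum_congr rfl (fun y _ => ?_))
    rw [update_comm h]

theorem CJ (i a b : ι) (h1 : i ≠ a) (h2 : i ≠ b) :
    (Cop i * Jop a b : Module.End ℝ (Fn ι κ)) = Jop a b * Cop i := by
  refine LinearMap.ext (fun f => funext (fun c => ?_))
  simp only [Module.End.mul_apply, Cop_apply, Jop_apply, update_of_ne h1.symm,
    update_of_ne h2.symm]
  by_cases hc : c a = c b <;> simp [hc]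

theorem JJ (a b a' b' : ι) :
    (Jop a b * Jop a' b' : Module.End ℝ (Fn ι κ)) = Jop a' b' * Jop a b := by
  refine LinearMap.ext (fun f => funext (fun c => ?_))
  simp only [Module.End.mul_apply, Jop_apply]
  by_cases hc : c a = c b <;> simp [hc]

theorem Cop_symm (i : ι) (f g : Fn ι κ) : ip f (Cop i g) = ip (Cop i f) g := by
  simp only [ip, Cop_apply, Finset.mul_sum, Finset.sum_mul]
  exact sum_update i (fun c d => f c * g d)

theorem Jop_symm (a b : ι) (f g : Fn ι κ) : ip f (Jop a b g) = ip (Jop a b f) g := by
  simp only [ip, Jop_apply]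
  refine Finset.sum_congr rfl (fun c _ => ?_)
  by_cases hc : c a = c b <;> simp [hc]

/-- The colouring representation. -/
noncomputable def potts (n : ℕ) (pt : ℕ → ι) (hpt : ∀ i j, i ≤ n → j ≤ n → pt i = pt j → i = j)
    (q : ℝ) (hq : q = Fintype.card κ) : TL (2 * n + 1) q (Module.End ℝ (Fn ι κ)) where
  e j := if Even j then Cop (pt (j / 2)) else Jop (pt (j / 2)) (pt (j / 2 + 1))
  sq j hj := by
    by_cases h : Even j
    · simp only [h, if_true]
      rw [Cop_sq, hq]
    · simp only [h, if_false]
      rw [Jop_sq, one_smul]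
  r1 j hj := by
    rcases Nat.even_or_odd' j with ⟨i, rfl | rfl⟩
    · have h1 : Even (2 * i) := even_two_mul i
      have h2 : ¬ Even (2 * i + 1) := by simp
      have h3 : 2 * i / 2 = i := by omega
      have h4 : (2 * i + 1) / 2 = i := by omega
      simp only [h1, h2, if_true, if_false, h3, h4]
      refine CJC _ _ (fun h => ?_)
      have := hpt _ _ (by omega) (by omega) h
      omega
    · have h1 : Even (2 * i + 1 + 1) := ⟨i + 1, by ring⟩
      have h2 : ¬ Even (2 * i + 1) := by simp
      have h3 : (2 * i + 1 + 1) / 2 = i + 1 := by omega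
      have h4 : (2 * i + 1) / 2 = i := by omega
      simp only [h1, h2, if_true, if_false, h3, h4]
      rw [Jop_comm]
      refine JCJ _ _ (fun h => ?_)
      have := hpt _ _ (by omega) (by omega) h
      omega
  r2 j hj := by
    rcases Nat.even_or_odd' j with ⟨i, rfl | rfl⟩
    · have h1 : Even (2 * i) := even_two_mul i
      have h2 : ¬ Even (2 * i + 1) := by simp
      have h3 : 2 * i / 2 = i := by omega
      have h4 : (2 * i + 1) / 2 = i := by omega
      simp only [h1, h2, if_true, if_false, h3, h4]
      refine JCJ _ _ (fun h => ?_)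
      have := hpt _ _ (by omega) (by omega) h
      omega
    · have h1 : Even (2 * i + 1 + 1) := ⟨i + 1, by ring⟩
      have h2 : ¬ Even (2 * i + 1) := by simp
      have h3 : (2 * i + 1 + 1) / 2 = i + 1 := by omega
      have h4 : (2 * i + 1) / 2 = i := by omega
      simp only [h1, h2, if_true, if_false, h3, h4]
      rw [Jop_comm]
      refine CJC _ _ (fun h => ?_)
      have := hpt _ _ (by omega) (by omega) h
      omega
  comm i j hij hj := by
    rcases Nat.even_or_odd' i with ⟨a, rfl | rfl⟩ <;> rcases Nat.even_or_odd' j with ⟨b, rfl | rfl⟩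
    · have h1 : Even (2 * a) := even_two_mul a
      have h2 : Even (2 * b) := even_two_mul b
      simp only [h1, h2, if_true]
      exact CC _ _
    · have h1 : Even (2 * a) := even_two_mul a
      have h2 : ¬ Even (2 * b + 1) := by simp
      have h3 : 2 * a / 2 = a := by omega
      have h4 : (2 * b + 1) / 2 = b := by omega
      simp only [h1, h2, if_true, if_false, h3, h4]
      refine CJ _ _ _ (fun h => ?_) (fun h => ?_)
      · have := hpt _ _ (by omega) (by omega) h
        omega
      · have := hpt _ _ (by omega) (by omega) h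
        omega
    · have h1 : ¬ Even (2 * a + 1) := by simp
      have h2 : Even (2 * b) := even_two_mul b
      have h3 : (2 * a + 1) / 2 = a := by omega
      have h4 : 2 * b / 2 = b := by omega
      simp only [h1, h2, if_true, if_false, h3, h4]
      refine (CJ _ _ _ (fun h => ?_) (fun h => ?_)).symm
      · have := hpt _ _ (by omega) (by omega) h
        omega
      · have := hpt _ _ (by omega) (by omega) h
        omega
    · have h1 : ¬ Even (2 * a + 1) := by simp
      have h2 : ¬ Even (2 * b + 1) := by simp
      simp only [h1, h2, if_false]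
      exact JJ _ _ _ _

theorem potts_symm (n : ℕ) (pt : ℕ → ι) (hpt : ∀ i j, i ≤ n → j ≤ n → pt i = pt j → i = j)
    (q : ℝ) (hq : q = Fintype.card κ) (j : ℕ) (f g : Fn ι κ) :
    ip f ((potts n pt hpt q hq).e j g) = ip ((potts n pt hpt q hq).e j f) g := by
  change ip f ((if Even j then Cop (pt (j / 2)) else Jop (pt (j / 2)) (pt (j / 2 + 1)) :
    Module.End ℝ (Fn ι κ)) g) = ip ((if Even j then Cop (pt (j / 2)) else
      Jop (pt (j / 2)) (pt (j / 2 + 1)) : Module.End ℝ (Fn ι κ)) f) g
  split_ifs
  · exact Cop_symm _ _ _
  · exact Jop_symm _ _ _ _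

end general

section vertex

variable {ι : Type} [Fintype ι] [DecidableEq ι]

/-- cup weight -/
def cup (w : Bool → ℝ) (x y : Bool) : ℝ := if y = !x then w x else 0

/-- contraction with the cup -/
def Bf (w : Bool → ℝ) (a b : ι) (f : Fn ι Bool) (s : ι → Bool) : ℝ :=
  ∑ x, w x * f (update (update s a x) b (!x))

/-- vertex generator -/
def Eop (w : Bool → ℝ) (a b : ι) : Fn ι Bool →ₗ[ℝ] Fn ι Bool where
  toFun f s := cup w (s a) (s b) * Bf w a b f s
  map_add' f g := by ext c; simp [Bf]; ring
  map_smul' r f := by ext c; simp [Bf]; ring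

theorem Eop_apply (w : Bool → ℝ) (a b : ι) (f : Fn ι Bool) (s : ι → Bool) :
    Eop w a b f s = cup w (s a) (s b) * Bf w a b f s := rfl

theorem Bf_update (w : Bool → ℝ) (a b : ι) (hab : a ≠ b) (f : Fn ι Bool) (s : ι → Bool)
    (x y : Bool) : Bf w a b f (update (update s a x) b y) = Bf w a b f s := by
  unfold Bf
  refine Finset.sum_congr rfl (fun z _ => ?_)
  congr 2
  ext i
  by_cases h1 : i = b
  · subst h1; simp
  · by_cases h2 : i = a
    · subst h2; simp [h1]
    · simp [h1, h2]

theorem sum_two (a b : ι) (F : (ι → Bool) → ℝ) :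
    ∑ s : ι → Bool, ∑ x : Bool, ∑ y : Bool, F (update (update s a x) b y) = 4 * ∑ s, F s := by
  have h1 := sum_update' (κ := Bool) a (fun s => ∑ y : Bool, F (update s b y))
  have h2 := sum_update' (κ := Bool) b F
  rw [h1, h2]
  simp
  ring

theorem Eop_ip (w : Bool → ℝ) (a b : ι) (hab : a ≠ b) (f g : Fn ι Bool) :
    4 * ip f (Eop w a b g) = ∑ s, Bf w a b f s * Bf w a b g s := by
  unfold ip
  rw [← sum_two a b]
  refine Finset.sum_congr rfl (fun s _ => ?_)
  simp only [Eop_apply, Bf_update w a b hab]
  simp [cup, Bf, update_of_ne hab]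
  ring

theorem Eop_symm (w : Bool → ℝ) (a b : ι) (hab : a ≠ b) (f g : Fn ι Bool) :
    ip f (Eop w a b g) = ip (Eop w a b f) g := by
  have h1 := Eop_ip w a b hab f g
  have h2 := Eop_ip w a b hab g f
  rw [ip_comm (Eop w a b f) g]
  have h3 : ∑ s, Bf w a b f s * Bf w a b g s = ∑ s, Bf w a b g s * Bf w a b f s :=
    Finset.sum_congr rfl (fun s _ => mul_comm _ _)
  linarith

theorem Eop_sq (w : Bool → ℝ) (a b : ι) (hab : a ≠ b) :
    (Eop w a b * Eop w a b : Module.End ℝ (Fn ι Bool)) =
      (w true ^ 2 + w false ^ 2) • Eop w a b := by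
  refine LinearMap.ext (fun f => funext (fun s => ?_))
  simp only [Module.End.mul_apply, LinearMap.smul_apply, Pi.smul_apply, Eop_apply]
  have : Bf w a b (Eop w a b f) s = (w true ^ 2 + w false ^ 2) * Bf w a b f s := by
    conv_lhs => unfold Bf
    simp only [Eop_apply, Bf_update w a b hab]
    simp [cup, update_of_ne hab]
    ring
  rw [this, smul_eq_mul]
  ring

theorem w_mul_not (w : Bool → ℝ) (hw : w true * w false = 1) (x : Bool) : w x * w (!x) = 1 := by
  cases x
  · simpa [mul_comm] using hw
  · simpa using hw

theorem zig1 (w : Bool → ℝ) (hw : w true * w false = 1) (a b c : ι) (hab : a ≠ b) (hbc : b ≠ c)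
    (hac : a ≠ c) :
    (Eop w a b * Eop w b c * Eop w a b : Module.End ℝ (Fn ι Bool)) = Eop w a b := by
  refine LinearMap.ext (fun f => funext (fun s => ?_))
  simp only [Module.End.mul_apply]
  rw [Eop_apply, Eop_apply]
  congr 1
  have key : ∀ x : Bool, Eop w b c (Eop w a b f) (update (update s a x) b (!x)) =
      if x = s c then w (!x) * Bf w a b f s else 0 := by
    intro x
    rw [Eop_apply]
    simp only [update_self, update_of_ne hbc.symm, update_of_ne hac.symm]
    by_cases h : x = s c
    · subst h
      simp only [if_true]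
      have h1 : cup w (!s c) (s c) = w (!s c) := by simp [cup]
      rw [h1]
      congr 1
      have h2 : ∀ y : Bool, w y * Eop w a b f
          (update (update (update (update s a (s c)) b (!s c)) b y) c (!y)) =
          if y = !(s c) then Bf w a b f s else 0 := by
        intro y
        rw [Eop_apply]
        have e1 : update (update (update (update s a (s c)) b (!s c)) b y) c (!y) a = s c := by
          simp [update_of_ne hac, update_of_ne hab]
        have e2 : update (update (update (update s a (s c)) b (!s c)) b y) c (!y) b = y := by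
          simp [update_of_ne hbc]
        rw [e1, e2]
        by_cases hy : y = !(s c)
        · subst hy
          have e3 : update (update (update (update s a (s c)) b (!s c)) b (!s c)) c (!(!s c)) =
              update (update s a (s c)) b (!s c) := by
            refine funext (fun i => ?_)
            by_cases h1 : i = c
            · subst h1; simp [update_of_ne hbc.symm, update_of_ne hac.symm]
            · simp [update_of_ne h1]
          have e4 : cup w (s c) (!s c) = w (s c) := by simp [cup]
          rw [e3, Bf_update w a b hab, e4, if_pos rfl, ← mul_assoc, mul_comm (w (!s c)),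
            w_mul_not w hw, one_mul]
        · have e4 : cup w (s c) y = 0 := by simp [cup, hy]
          rw [e4, if_neg hy, zero_mul, mul_zero]
      unfold Bf at h2 ⊢
      rw [Finset.sum_congr rfl (fun y _ => h2 y)]
      simp
    · have h' : s c ≠ !(!x) := by simpa using fun h' => h h'.symm
      have h1 : cup w (!x) (s c) = 0 := by simp only [cup, if_neg h']
      rw [h1, if_neg h, zero_mul]
  unfold Bf at key ⊢
  rw [Finset.sum_congr rfl (fun x _ => by rw [key x])]
  simp only [mul_ite, mul_zero, Finset.sum_ite_eq', Finset.mem_univ, if_true]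
  rw [← mul_assoc, w_mul_not w hw, one_mul]

theorem zig2 (w : Bool → ℝ) (hw : w true * w false = 1) (a b c : ι) (hab : a ≠ b) (hbc : b ≠ c)
    (hac : a ≠ c) :
    (Eop w b c * Eop w a b * Eop w b c : Module.End ℝ (Fn ι Bool)) = Eop w b c := by
  refine LinearMap.ext (fun f => funext (fun s => ?_))
  simp only [Module.End.mul_apply]
  rw [Eop_apply, Eop_apply]
  congr 1
  have key : ∀ x : Bool, Eop w a b (Eop w b c f) (update (update s b x) c (!x)) =
      if x = !(s a) then w (!x) * Bf w b c f s else 0 := by
    intro x
    rw [Eop_apply]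
    simp only [update_self, update_of_ne hab, update_of_ne hac, update_of_ne hbc]
    by_cases h : x = !(s a)
    · subst h
      simp only [if_true]
      have h1 : cup w (s a) (!s a) = w (s a) := by simp [cup]
      rw [h1, Bool.not_not]
      congr 1
      have h2 : ∀ y : Bool, w y * Eop w b c f
          (update (update (update (update s b (!s a)) c (s a)) a y) b (!y)) =
          if y = s a then Bf w b c f s else 0 := by
        intro y
        rw [Eop_apply]
        have e1 : update (update (update (update s b (!s a)) c (s a)) a y) b (!y) b = !y := by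
          simp
        have e2 : update (update (update (update s b (!s a)) c (s a)) a y) b (!y) c = s a := by
          simp [update_of_ne hbc.symm, update_of_ne hac.symm]
        rw [e1, e2]
        by_cases hy : y = s a
        · subst hy
          have e3 : update (update (update (update s b (!s a)) c (s a)) a (s a)) b (!s a) =
              update (update s b (!s a)) c (s a) := by
            refine funext (fun i => ?_)
            by_cases h1 : i = b
            · subst h1; simp [update_of_ne hbc]
            · by_cases h2 : i = a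
              · subst h2; simp [update_of_ne hac, update_of_ne hab]
              · simp [update_of_ne h1, update_of_ne h2]
          have e4 : cup w (!s a) (s a) = w (!s a) := by simp [cup]
          rw [e3, Bf_update w b c hbc, e4, if_pos rfl, ← mul_assoc, w_mul_not w hw, one_mul]
        · have e4 : cup w (!y) (s a) = 0 := by
            have : s a ≠ !(!y) := by simpa using fun h' => hy h'.symm
            simp only [cup, if_neg this]
          rw [e4, if_neg hy, zero_mul, mul_zero]
      unfold Bf at h2 ⊢
      rw [Finset.sum_congr rfl (fun y _ => h2 y)]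
      simp
    · have h1 : cup w (s a) x = 0 := by simp only [cup, if_neg h]
      rw [h1, if_neg h, zero_mul]
  unfold Bf at key ⊢
  rw [Finset.sum_congr rfl (fun x _ => by rw [key x])]
  simp only [mul_ite, mul_zero, Finset.sum_ite_eq', Finset.mem_univ, if_true]
  rw [← mul_assoc, w_mul_not w hw, one_mul]

theorem EE (w : Bool → ℝ) (a b c d : ι) (hac : a ≠ c) (had : a ≠ d)
    (hbc : b ≠ c) (hbd : b ≠ d) :
    (Eop w a b * Eop w c d : Module.End ℝ (Fn ι Bool)) = Eop w c d * Eop w a b := by
  refine LinearMap.ext (fun f => funext (fun s => ?_))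
  simp only [Module.End.mul_apply]
  rw [Eop_apply, Eop_apply]
  simp only [Bf, Eop_apply, update_of_ne hac, update_of_ne hac.symm, update_of_ne had,
    update_of_ne had.symm, update_of_ne hbc, update_of_ne hbc.symm, update_of_ne hbd,
    update_of_ne hbd.symm, Finset.mul_sum]
  rw [Finset.sum_comm]
  refine Finset.sum_congr rfl (fun x _ => Finset.sum_congr rfl (fun y _ => ?_))
  have : update (update (update (update s a y) b (!y)) c x) d (!x) =
      update (update (update (update s c x) d (!x)) a y) b (!y) := by
    refine funext (fun i => ?_)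
    by_cases h1 : i = a
    · subst h1
      by_cases h2 : i = b
      · subst h2; simp [update_of_ne hac, update_of_ne had]
      · simp [update_of_ne hac, update_of_ne had, h2]
    · by_cases h2 : i = b
      · subst h2; simp [update_of_ne hbc, update_of_ne hbd]
      · simp [h1, h2, Function.update_apply]
  rw [this]
  ring

/-- The vertex representation. -/
noncomputable def vert (n : ℕ) (st : ℕ → ι)
    (hst : ∀ i j, i ≤ 2 * n + 1 → j ≤ 2 * n + 1 → st i = st j → i = j)
    (w : Bool → ℝ) (hw : w true * w false = 1) (δ q : ℝ) (hδ : δ = w true ^ 2 + w false ^ 2)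
    (hδ0 : δ ≠ 0) (hq : q = δ ^ 2) :
    TL (2 * n + 1) q (Module.End ℝ (Fn ι Bool)) where
  e j := (if Even j then δ else δ⁻¹) • Eop w (st j) (st (j + 1))
  sq j hj := by
    have h1 : st j ≠ st (j + 1) := fun h => by
      have := hst _ _ (by omega) (by omega) h
      omega
    rw [smul_mul_smul_comm, Eop_sq w _ _ h1, ← hδ]
    by_cases h : Even j
    · simp only [h, if_true, hq, smul_smul]
      congr 1
      ring
    · simp only [h, if_false, smul_smul]
      congr 1
      field_simp
  r1 j hj := by
    have h1 : st j ≠ st (j + 1) := fun h => by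
      have := hst _ _ (by omega) (by omega) h
      omega
    have h2 : st (j + 1) ≠ st (j + 1 + 1) := fun h => by
      have := hst _ _ (by omega) (by omega) h
      omega
    have h3 : st j ≠ st (j + 1 + 1) := fun h => by
      have := hst _ _ (by omega) (by omega) h
      omega
    rw [smul_mul_smul_comm, smul_mul_smul_comm, zig1 w hw _ _ _ h1 h2 h3]
    congr 1
    by_cases h : Even j
    · have h' : ¬ Even (j + 1) := by simpa [Nat.even_add_one] using h
      simp only [h, h', if_true, if_false]
      field_simp
    · have h' : Even (j + 1) := by simpa [Nat.even_add_one] using h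
      simp only [h, h', if_true, if_false]
      field_simp
  r2 j hj := by
    have h1 : st j ≠ st (j + 1) := fun h => by
      have := hst _ _ (by omega) (by omega) h
      omega
    have h2 : st (j + 1) ≠ st (j + 1 + 1) := fun h => by
      have := hst _ _ (by omega) (by omega) h
      omega
    have h3 : st j ≠ st (j + 1 + 1) := fun h => by
      have := hst _ _ (by omega) (by omega) h
      omega
    rw [smul_mul_smul_comm, smul_mul_smul_comm, zig2 w hw _ _ _ h1 h2 h3]
    congr 1
    by_cases h : Even j
    · have h' : ¬ Even (j + 1) := by simpa [Nat.even_add_one] using h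
      simp only [h, h', if_true, if_false]
      field_simp
    · have h' : Even (j + 1) := by simpa [Nat.even_add_one] using h
      simp only [h, h', if_true, if_false]
      field_simp
  comm i j hij hj := by
    have hne : ∀ a b, a ≤ 2 * n + 1 → b ≤ 2 * n + 1 → a ≠ b → st a ≠ st b :=
      fun a b ha hb hab h => hab (hst a b ha hb h)
    rw [smul_mul_smul_comm, smul_mul_smul_comm,
      EE w _ _ _ _ (hne _ _ (by omega) (by omega) (by omega))
        (hne _ _ (by omega) (by omega) (by omega)) (hne _ _ (by omega) (by omega) (by omega))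
        (hne _ _ (by omega) (by omega) (by omega)), mul_comm]

theorem vert_symm (n : ℕ) (st : ℕ → ι)
    (hst : ∀ i j, i ≤ 2 * n + 1 → j ≤ 2 * n + 1 → st i = st j → i = j)
    (w : Bool → ℝ) (hw : w true * w false = 1) (δ q : ℝ) (hδ : δ = w true ^ 2 + w false ^ 2)
    (hδ0 : δ ≠ 0) (hq : q = δ ^ 2) (j : ℕ) (hj : j < 2 * n + 1) (f g : Fn ι Bool) :
    ip f ((vert n st hst w hw δ q hδ hδ0 hq).e j g) =
      ip ((vert n st hst w hw δ q hδ hδ0 hq).e j f) g := by
  change ip f (((if Even j then δ else δ⁻¹) • Eop w (st j) (st (j + 1)) :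
    Module.End ℝ (Fn ι Bool)) g) = ip (((if Even j then δ else δ⁻¹) • Eop w (st j) (st (j + 1)) :
    Module.End ℝ (Fn ι Bool)) f) g
  have h1 : st j ≠ st (j + 1) := fun h => by
    have := hst _ _ (by omega) (by omega) h
    omega
  have h2 := Eop_symm w (st j) (st (j + 1)) h1 f g
  have h3 : ∀ r : ℝ, ip f (r • Eop w (st j) (st (j + 1)) g) =
      r * ip f (Eop w (st j) (st (j + 1)) g) := by
    intro r
    simp [ip, Finset.mul_sum]
    exact Finset.sum_congr rfl (fun s _ => by ring)
  have h4 : ∀ r : ℝ, ip (r • Eop w (st j) (st (j + 1)) f) g =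
      r * ip (Eop w (st j) (st (j + 1)) f) g := by
    intro r
    simp [ip, Finset.mul_sum]
    exact Finset.sum_congr rfl (fun s _ => by ring)
  rw [LinearMap.smul_apply, LinearMap.smul_apply, h3, h4, h2]

end vertex

end Pool.Agent.H207R2.BL
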