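import Mathlib

/-!
Words in Temperley-Lieb type generators: normal form (Jones) and evaluation of a state on words.
The value of a state on a word is `q ^ N` times its value on `1`, with `N` depending on the word only.
-/

set_option autoImplicit false

namespace Pool.Agent.H207R2.BL

/-- Generators `e 0, …, e (M-1)` with Temperley-Lieb relations, normalised so that the even
generators satisfy `e*e = q • e` and the odd ones are idempotent. -/
structure TL (M : ℕ) (q : ℝ) (A : Type) [Ring A] [Algebra ℝ A] where
  e : ℕ → A
  sq : ∀ j, j < M → e j * e j = (if Even j then q else 1) • e j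
  r1 : ∀ j, j + 1 < M → e j * e (j + 1) * e j = e j
  r2 : ∀ j, j + 1 < M → e (j + 1) * e j * e (j + 1) = e (j + 1)
  comm : ∀ i j, i + 2 ≤ j → j < M → e i * e j = e j * e i

namespace TL

variable {M : ℕ} {q : ℝ} {A : Type} [Ring A] [Algebra ℝ A]

/-- The product of a word. -/
def W (S : TL M q A) (w : List ℕ) : A := (w.map S.e).prod

@[simp] theorem W_nil (S : TL M q A) : S.W [] = 1 := rfl

@[simp] theorem W_cons (S : TL M q A) (j : ℕ) (w : List ℕ) : S.W (j :: w) = S.e j * S.W w := by
  simp [W]

theorem W_append (S : TL M q A) (v w : List ℕ) : S.W (v ++ w) = S.W v * S.W w := by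
  simp [W]

theorem W_comm (S : TL M q A) (m : ℕ) (hm : m < M) (w : List ℕ) (hw : ∀ j ∈ w, j + 2 ≤ m) :
    S.W w * S.e m = S.e m * S.W w := by
  induction w with
  | nil => simp
  | cons j w ih =>
    have h1 := ih (fun i hi => hw i (List.mem_cons_of_mem _ hi))
    have h2 := S.comm j m (hw j List.mem_cons_self) hm
    rw [W_cons, mul_assoc, h1, ← mul_assoc, h2, mul_assoc]

end TL

/-- Normal form statement: the letter `m` occurs at most once. -/
def NF (M m : ℕ) (w : List ℕ) : Prop :=
  ∃ a : ℕ,
    (∃ w' : List ℕ, (∀ j ∈ w', j < m) ∧
      ∀ (q : ℝ) (A : Type) [Ring A] [Algebra ℝ A] (S : TL M q A), S.W w = q ^ a • S.W w') ∨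
    (∃ x y : List ℕ, (∀ j ∈ x, j < m) ∧ (∀ j ∈ y, j < m) ∧
      ∀ (q : ℝ) (A : Type) [Ring A] [Algebra ℝ A] (S : TL M q A),
        S.W w = q ^ a • (S.W x * S.e m * S.W y))

theorem nf (M m : ℕ) (hm : m < M) (w : List ℕ) (hw : ∀ j ∈ w, j ≤ m) : NF M m w := by
  induction m generalizing w with
  | zero =>
    induction w with
    | nil => exact ⟨0, Or.inl ⟨[], by simp, by intro q A _ _ S; simp⟩⟩
    | cons j w ih =>
      have hj : j = 0 := Nat.le_zero.1 (hw j List.mem_cons_self)
      subst hj
      obtain ⟨a, h | h⟩ := ih (fun i hi => hw i (List.mem_cons_of_mem _ hi))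
      · obtain ⟨w', hw', h⟩ := h
        have hw'0 : w' = [] := by
          rcases w' with _ | ⟨i, w'⟩
          · rfl
          · exact absurd (hw' i List.mem_cons_self) (by omega)
        subst hw'0
        refine ⟨a, Or.inr ⟨[], [], by simp, by simp, ?_⟩⟩
        intro q A _ _ S
        rw [TL.W_cons, h q A S]
        simp
      · obtain ⟨x, y, hx, hy, h⟩ := h
        have hx0 : x = [] := by
          rcases x with _ | ⟨i, x⟩
          · rfl
          · exact absurd (hx i List.mem_cons_self) (by omega)
        have hy0 : y = [] := by
          rcases y with _ | ⟨i, y⟩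
          · rfl
          · exact absurd (hy i List.mem_cons_self) (by omega)
        subst hx0
        subst hy0
        refine ⟨a + 1, Or.inr ⟨[], [], by simp, by simp, ?_⟩⟩
        intro q A _ _ S
        have h2 := S.sq 0 hm
        rw [TL.W_cons, h q A S]
        simp only [TL.W_nil, one_mul, mul_one, mul_smul_comm]
        rw [h2]
        simp [pow_succ, smul_smul]
  | succ m ihm =>
    induction w with
    | nil => exact ⟨0, Or.inl ⟨[], by simp, by intro q A _ _ S; simp⟩⟩
    | cons j w ih =>
      have hj : j ≤ m + 1 := hw j List.mem_cons_self
      obtain ⟨a, h | h⟩ := ih (fun i hi => hw i (List.mem_cons_of_mem _ hi))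
      · obtain ⟨w', hw', h⟩ := h
        rcases Nat.lt_or_ge j (m + 1) with hj1 | hj1
        · refine ⟨a, Or.inl ⟨j :: w', ?_, ?_⟩⟩
          · intro i hi
            rcases List.mem_cons.1 hi with rfl | hi
            · exact hj1
            · exact hw' i hi
          · intro q A _ _ S
            rw [TL.W_cons, h q A S, TL.W_cons, mul_smul_comm]
        · have hj2 : j = m + 1 := le_antisymm hj hj1
          subst hj2
          refine ⟨a, Or.inr ⟨[], w', by simp, hw', ?_⟩⟩
          intro q A _ _ S
          rw [TL.W_cons, h q A S]
          simp
      · obtain ⟨x, y, hx, hy, h⟩ := h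
        rcases Nat.lt_or_ge j (m + 1) with hj1 | hj1
        · refine ⟨a, Or.inr ⟨j :: x, y, ?_, hy, ?_⟩⟩
          · intro i hi
            rcases List.mem_cons.1 hi with rfl | hi
            · exact hj1
            · exact hx i hi
          · intro q A _ _ S
            rw [TL.W_cons, h q A S, TL.W_cons, mul_smul_comm]
            simp only [mul_assoc]
        · have hj2 : j = m + 1 := le_antisymm hj hj1
          subst hj2
          obtain ⟨b, h' | h'⟩ := ihm (by omega) x (fun i hi => Nat.lt_succ_iff.1 (hx i hi))
          · obtain ⟨x', hx', h'⟩ := h'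
            refine ⟨a + b + (if Even (m + 1) then 1 else 0), Or.inr ⟨x', y, ?_, hy, ?_⟩⟩
            · intro i hi
              exact (hx' i hi).trans (Nat.lt_succ_self m)
            · intro q A _ _ S
              have hc := S.W_comm (m + 1) hm x' (fun i hi => by have := hx' i hi; omega)
              have h2 := S.sq (m + 1) hm
              rw [TL.W_cons, h q A S, h' q A S]
              calc S.e (m + 1) * q ^ a • (q ^ b • S.W x' * S.e (m + 1) * S.W y)
                  = (q ^ a * q ^ b) • ((S.e (m + 1) * S.W x') * S.e (m + 1) * S.W y) := by
                    simp only [smul_mul_assoc, mul_smul_comm, smul_smul, mul_assoc]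
                _ = (q ^ a * q ^ b) • (S.W x' * (S.e (m + 1) * S.e (m + 1)) * S.W y) := by
                    rw [← hc]; simp only [mul_assoc]
                _ = q ^ (a + b + (if Even (m + 1) then 1 else 0)) •
                      (S.W x' * S.e (m + 1) * S.W y) := by
                    rw [h2]
                    simp only [smul_mul_assoc, mul_smul_comm, smul_smul]
                    congr 1
                    split_ifs <;> simp [pow_add]
          · obtain ⟨x1, x2, hx1, hx2, h'⟩ := h'
            refine ⟨a + b, Or.inr ⟨x1, x2 ++ y, ?_, ?_, ?_⟩⟩
            · intro i hi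
              exact (hx1 i hi).trans (Nat.lt_succ_self m)
            · intro i hi
              rcases List.mem_append.1 hi with hi | hi
              · exact (hx2 i hi).trans (Nat.lt_succ_self m)
              · exact hy i hi
            · intro q A _ _ S
              have hc1 := S.W_comm (m + 1) hm x1 (fun i hi => by have := hx1 i hi; omega)
              have hc2 := S.W_comm (m + 1) hm x2 (fun i hi => by have := hx2 i hi; omega)
              have h2 := S.r2 m hm
              rw [TL.W_cons, h q A S, h' q A S, TL.W_append]
              calc S.e (m + 1) * q ^ a • (q ^ b • (S.W x1 * S.e m * S.W x2) * S.e (m + 1) * S.W y)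
                  = (q ^ a * q ^ b) • ((S.e (m + 1) * S.W x1) * S.e m *
                      (S.W x2 * S.e (m + 1)) * S.W y) := by
                    simp only [smul_mul_assoc, mul_smul_comm, smul_smul, mul_assoc]
                _ = (q ^ a * q ^ b) • (S.W x1 * (S.e (m + 1) * S.e m * S.e (m + 1)) *
                      (S.W x2 * S.W y)) := by
                    rw [← hc1, hc2]; simp only [mul_assoc]
                _ = q ^ (a + b) • (S.W x1 * S.e (m + 1) * (S.W x2 * S.W y)) := by
                    rw [h2, pow_add]

/-- A state for the even generators. -/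
structure State {M : ℕ} {q : ℝ} {A : Type} [Ring A] [Algebra ℝ A] (S : TL M q A) where
  φ : A →ₗ[ℝ] ℝ
  left : ∀ j, j < M → Even j → ∀ x, φ (S.e j * x) = q * φ x
  right : ∀ j, j < M → Even j → ∀ x, φ (x * S.e j) = q * φ x

theorem state_eval (n m : ℕ) (hm : m ≤ 2 * n + 1) (w : List ℕ) (hw : ∀ j ∈ w, j < m) :
    ∃ N : ℤ, ∀ (q : ℝ), q ≠ 0 → ∀ (A : Type) [Ring A] [Algebra ℝ A] (S : TL (2 * n + 1) q A)
      (F : State S), F.φ (S.W w) = q ^ N * F.φ 1 := by
  induction m generalizing w with
  | zero =>
    have hw0 : w = [] := by
      rcases w with _ | ⟨i, w⟩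
      · rfl
      · exact absurd (hw i List.mem_cons_self) (by omega)
    subst hw0
    exact ⟨0, by intro q _ A _ _ S F; simp⟩
  | succ m ihm =>
    have ih := fun w hw => ihm (by omega) w hw
    obtain ⟨a, h | h⟩ := nf (2 * n + 1) m (by omega) w (fun j hj => Nat.lt_succ_iff.1 (hw j hj))
    · obtain ⟨w', hw', h⟩ := h
      obtain ⟨N, hN⟩ := ih w' hw'
      refine ⟨a + N, ?_⟩
      intro q hq A _ _ S F
      rw [h q A S, map_smul, hN q hq A S F, smul_eq_mul, zpow_add₀ hq, zpow_natCast]
      ring
    · obtain ⟨x, y, hx, hy, h⟩ := h
      rcases Nat.even_or_odd m with he | ho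
      · -- even top letter
        rcases Nat.eq_zero_or_pos m with h0 | hpos
        · subst h0
          have hx0 : x = [] := by
            rcases x with _ | ⟨i, x⟩
            · rfl
            · exact absurd (hx i List.mem_cons_self) (by omega)
          have hy0 : y = [] := by
            rcases y with _ | ⟨i, y⟩
            · rfl
            · exact absurd (hy i List.mem_cons_self) (by omega)
          subst hx0
          subst hy0
          refine ⟨a + 1, ?_⟩
          intro q hq A _ _ S F
          have := F.right 0 (by omega) he 1
          rw [h q A S, map_smul, smul_eq_mul, zpow_add₀ hq, zpow_natCast]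
          simp only [TL.W_nil, one_mul, mul_one] at this ⊢
          rw [this, zpow_one]
          ring
        · obtain ⟨m', rfl⟩ : ∃ m', m = m' + 1 := ⟨m - 1, by omega⟩
          obtain ⟨b, h' | h'⟩ := nf (2 * n + 1) m' (by omega) y
            (fun j hj => Nat.lt_succ_iff.1 (hy j hj))
          · obtain ⟨y', hy', h'⟩ := h'
            obtain ⟨N, hN⟩ := ih (x ++ y') (by
              intro j hj
              rcases List.mem_append.1 hj with hj | hj
              · exact hx j hj
              · exact (hy' j hj).trans (Nat.lt_succ_self m'))
            refine ⟨a + (b + 1 + N), ?_⟩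
            intro q hq A _ _ S F
            have hc := S.W_comm (m' + 1) (by omega) y' (fun i hi => by have := hy' i hi; omega)
            have h1 := F.right (m' + 1) (by omega) he (S.W x * S.W y')
            have h2 := hN q hq A S F
            rw [TL.W_append] at h2
            rw [h q A S, h' q A S, map_smul, smul_eq_mul]
            have h3 : S.W x * S.e (m' + 1) * q ^ b • S.W y'
                = q ^ b • (S.W x * S.W y' * S.e (m' + 1)) := by
              rw [mul_smul_comm, mul_assoc, ← hc, mul_assoc]
            rw [h3, map_smul, h1, h2, smul_eq_mul, zpow_add₀ hq, zpow_add₀ hq, zpow_add₀ hq,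
              zpow_natCast, zpow_natCast]
            simp
            ring
          · obtain ⟨y1, y2, hy1, hy2, h'⟩ := h'
            obtain ⟨N, hN⟩ := ih (x ++ (y1 ++ y2)) (by
              intro j hj
              rcases List.mem_append.1 hj with hj | hj
              · exact hx j hj
              · rcases List.mem_append.1 hj with hj | hj
                · exact (hy1 j hj).trans (Nat.lt_succ_self m')
                · exact (hy2 j hj).trans (Nat.lt_succ_self m'))
            refine ⟨a + (b + N), ?_⟩
            intro q hq A _ _ S F
            have hc1 := S.W_comm (m' + 1) (by omega) y1 (fun i hi => by have := hy1 i hi; omega)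
            have hc2 := S.W_comm (m' + 1) (by omega) y2 (fun i hi => by have := hy2 i hi; omega)
            have hr := S.r2 m' (by omega)
            have hR := fun z => F.right (m' + 1) (by omega) he z
            have h2 := hN q hq A S F
            rw [TL.W_append, TL.W_append] at h2
            have key : q * F.φ (S.W x * S.e (m' + 1) * (S.W y1 * S.e m' * S.W y2))
                = q * F.φ (S.W x * (S.W y1 * S.W y2)) := by
              rw [← hR, ← hR]
              congr 1
              calc S.W x * S.e (m' + 1) * (S.W y1 * S.e m' * S.W y2) * S.e (m' + 1)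
                  = S.W x * (S.e (m' + 1) * S.W y1) * S.e m' * (S.W y2 * S.e (m' + 1)) := by
                    simp only [mul_assoc]
                _ = S.W x * S.W y1 * (S.e (m' + 1) * S.e m' * S.e (m' + 1)) * S.W y2 := by
                    rw [← hc1, hc2]; simp only [mul_assoc]
                _ = S.W x * S.W y1 * (S.e (m' + 1) * S.W y2) := by
                    rw [hr]; simp only [mul_assoc]
                _ = S.W x * (S.W y1 * S.W y2) * S.e (m' + 1) := by
                    rw [← hc2]; simp only [mul_assoc]
            have key2 := mul_left_cancel₀ hq key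
            rw [h q A S, h' q A S, map_smul, smul_eq_mul, mul_smul_comm, map_smul, key2, h2,
              smul_eq_mul, zpow_add₀ hq, zpow_add₀ hq, zpow_natCast, zpow_natCast]
            ring
      · -- odd top letter
        have hm1 : m + 1 < 2 * n + 1 := by
          obtain ⟨t, ht⟩ := ho
          omega
        have he1 : Even (m + 1) := ho.add_one
        obtain ⟨N, hN⟩ := ih (x ++ y) (by
          intro j hj
          rcases List.mem_append.1 hj with hj | hj
          · exact hx j hj
          · exact hy j hj)
        refine ⟨a + (-1 + N), ?_⟩
        intro q hq A _ _ S F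
        have hc1 := S.W_comm (m + 1) hm1 x (fun i hi => by have := hx i hi; omega)
        have hc2 := S.W_comm (m + 1) hm1 y (fun i hi => by have := hy i hi; omega)
        have hr := S.r2 m hm1
        have hR := fun z => F.right (m + 1) hm1 he1 z
        have hL := fun z => F.left (m + 1) hm1 he1 z
        have h2 := hN q hq A S F
        rw [TL.W_append] at h2
        have key : q * (q * F.φ (S.W x * S.e m * S.W y)) = q * F.φ (S.W x * S.W y) := by
          rw [← hR, ← hL, ← hR]
          congr 1
          calc S.e (m + 1) * (S.W x * S.e m * S.W y * S.e (m + 1))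
              = (S.e (m + 1) * S.W x) * S.e m * (S.W y * S.e (m + 1)) := by
                simp only [mul_assoc]
            _ = S.W x * (S.e (m + 1) * S.e m * S.e (m + 1)) * S.W y := by
                rw [← hc1, hc2]; simp only [mul_assoc]
            _ = S.W x * (S.e (m + 1) * S.W y) := by
                rw [hr]; simp only [mul_assoc]
            _ = S.W x * S.W y * S.e (m + 1) := by
                rw [← hc2]; simp only [mul_assoc]
        have key2 := mul_left_cancel₀ hq key
        have key3 : F.φ (S.W x * S.e m * S.W y) = q⁻¹ * F.φ (S.W x * S.W y) := by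
          field_simp
          linarith
        rw [h q A S, map_smul, smul_eq_mul, key3, h2, zpow_add₀ hq, zpow_add₀ hq, zpow_natCast,
          zpow_neg_one]
        ring

end Pool.Agent.H207R2.BL
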