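import Pool.Agent.H207R2.BL.Chrom

/-!
Existence, monicity and deletion-contraction for chromatic polynomials; positivity for `q > d` in
minor closed classes whose members have a vertex of degree at most `d` (Woodall, Thomassen).
-/

set_option autoImplicit false
set_option linter.unusedSectionVars false

namespace Pool.Agent.H207R2.BL

open Polynomial

theorem IsChrom.unique {V : Type} {G : SimpleGraph V} {p p' : ℝ[X]} (h : IsChrom G p)
    (h' : IsChrom G p') : p = p' := by
  apply Polynomial.eq_of_infinite_eval_eq
  apply Set.infinite_of_injective_forall_mem (f := fun k : ℕ => (k : ℝ)) Nat.cast_injective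
  intro k
  change p.eval (k : ℝ) = p'.eval (k : ℝ)
  rw [h k, h' k]

/-- The chromatic polynomial exists, is monic and has integer coefficients. -/
theorem exists_chrom {V : Type} [Finite V] (G : SimpleGraph V) :
    ∃ P : ℤ[X], P.Monic ∧ IsChrom G (P.map (Int.castRingHom ℝ)) := by
  classical
  have : Fintype V := Fintype.ofFinite V
  let c : Finset (Sym2 V) → ℕ := fun A => Nat.card (Quotient (comp A))
  let P : ℤ[X] := ∑ A ∈ G.edgeFinset.powerset, C ((-1 : ℤ) ^ A.card) * X ^ c A
  refine ⟨P, ?_, ?_⟩
  · have h0 : c ∅ = Fintype.card V := by
      have h1 : ∀ a b : V, (comp (∅ : Finset (Sym2 V))) a b → a = b := by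
        intro a b hab
        have := (comp_le (∅ : Finset (Sym2 V)) (id : V → V)).2 (by simp)
        exact this hab
      have h2 : Function.Bijective (Quotient.mk (comp (∅ : Finset (Sym2 V)))) :=
        ⟨fun a b hab => h1 a b (Quotient.exact hab), Quotient.mk_surjective⟩
      change Nat.card (Quotient (comp (∅ : Finset (Sym2 V)))) = Fintype.card V
      rw [← Nat.card_eq_fintype_card]
      exact (Nat.card_congr (Equiv.ofBijective _ h2)).symm
    have hP : P = X ^ (Fintype.card V) +
        ∑ A ∈ G.edgeFinset.powerset.erase ∅, C ((-1 : ℤ) ^ A.card) * X ^ c A := by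
      change ∑ A ∈ G.edgeFinset.powerset, C ((-1 : ℤ) ^ A.card) * X ^ c A = _
      rw [← Finset.add_sum_erase _ _ (Finset.empty_mem_powerset G.edgeFinset), h0]
      simp
    rw [hP]
    apply Polynomial.monic_X_pow_add
    have : ∑ A ∈ G.edgeFinset.powerset.erase ∅, C ((-1 : ℤ) ^ A.card) * X ^ c A ∈
        Polynomial.degreeLT ℤ (Fintype.card V) := by
      apply Submodule.sum_mem
      intro A hA
      rw [Polynomial.mem_degreeLT]
      refine (Polynomial.degree_C_mul_X_pow_le _ _).trans_lt ?_
      have hne := (Finset.mem_erase.1 hA).1
      obtain ⟨e, he⟩ := Finset.nonempty_of_ne_empty hne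
      have heG := Finset.mem_powerset.1 (Finset.mem_erase.1 hA).2 he
      induction e using Sym2.ind with
      | _ a b =>
        have hadj : G.Adj a b := by simpa using heG
        have hrel : (comp A) a b := ((comp_le A (Quotient.mk (comp A))).1
          (fun x y h => Quotient.sound h) a b he) |> Quotient.exact
        have : c A < Fintype.card V := by
          change Nat.card (Quotient (comp A)) < Fintype.card V
          have : Fintype (Quotient (comp A)) := Fintype.ofFinite _
          rw [Nat.card_eq_fintype_card]
          apply Fintype.card_lt_of_surjective_not_injective (Quotient.mk (comp A))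
            Quotient.mk_surjective
          intro hinj
          exact hadj.ne (hinj (Quotient.sound hrel))
        exact_mod_cast this
    exact Polynomial.mem_degreeLT.1 this
  · intro k
    rw [card_coloring]
    simp_rw [pr_expand]
    rw [Finset.sum_comm]
    simp only [P, Polynomial.map_sum, Polynomial.map_mul, Polynomial.map_pow, Polynomial.map_X,
      Polynomial.map_C, Polynomial.eval_finsetSum, Polynomial.eval_mul, Polynomial.eval_C,
      Polynomial.eval_pow, Polynomial.eval_X]
    refine Finset.sum_congr rfl (fun A _ => ?_)
    have h1 := sum_ind k (comp A) (comp A)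
    rw [sup_idem] at h1
    rw [← Finset.mul_sum]
    have h2 : ∑ g : V → Fin k, ind (comp A) g = ∑ g : V → Fin k, ind (comp A) g * ind (comp A) g := by
      refine Finset.sum_congr rfl (fun g _ => ?_)
      unfold ind
      split_ifs <;> simp
    rw [h2, h1]
    simp [c]

/-- A real number which is not an algebraic integer is never a chromatic root. -/
theorem not_root {V : Type} [Finite V] (G : SimpleGraph V) (p : ℝ[X]) (hp : IsChrom G p)
    (q : ℝ) (hq : ¬ IsIntegral ℤ q) : p.eval q ≠ 0 := by
  intro h0
  obtain ⟨P, hP, hPc⟩ := exists_chrom G
  rw [hp.unique hPc] at h0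
  apply hq
  refine ⟨P, hP, ?_⟩
  rw [← h0, Polynomial.eval_map]
  rfl

/-- chromatic polynomial -/
noncomputable def chr {V : Type} [Finite V] (G : SimpleGraph V) : ℝ[X] :=
  (exists_chrom G).choose.map (Int.castRingHom ℝ)

theorem chr_spec {V : Type} [Finite V] (G : SimpleGraph V) : IsChrom G (chr G) :=
  (exists_chrom G).choose_spec.2

theorem eq_chr {V : Type} [Finite V] {G : SimpleGraph V} {p : ℝ[X]} (h : IsChrom G p) :
    p = chr G := h.unique (chr_spec G)

/-- Contraction of the pair `u v`: the vertex `v` is removed and its neighbours are joined to `u`.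
-/
def contract {V : Type} (G : SimpleGraph V) (u v : V) : SimpleGraph {x : V // x ≠ v} where
  Adj x y := x ≠ y ∧ (G.Adj x.1 y.1 ∨ (x.1 = u ∧ G.Adj v y.1) ∨ (y.1 = u ∧ G.Adj v x.1))
  symm := ⟨by
    rintro x y ⟨h1, h2 | h2 | h2⟩
    · exact ⟨h1.symm, Or.inl h2.symm⟩
    · exact ⟨h1.symm, Or.inr (Or.inr h2)⟩
    · exact ⟨h1.symm, Or.inr (Or.inl h2)⟩⟩
  loopless := ⟨fun x h => h.1 rfl⟩

theorem card_colorings {V : Type} (G : SimpleGraph V) (k : ℕ) :
    Nat.card (G.Coloring (Fin k)) = Nat.card {g : V → Fin k // Proper G g} :=
  Nat.card_congr
    { toFun := fun c => ⟨fun v => c v, fun a b h => c.valid h⟩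
      invFun := fun g => SimpleGraph.Coloring.mk g.1 (fun {v w} h => g.2 v w h)
      left_inv := fun c => by ext v; rfl
      right_inv := fun g => rfl }

/-- Deletion-contraction. -/
theorem del_con {V : Type} [Finite V] (G H : SimpleGraph V) (u v : V) (huv : u ≠ v)
    (hH : ¬ H.Adj v u)
    (hG : ∀ x y, G.Adj x y ↔ (H.Adj x y ∨ (x = u ∧ y = v) ∨ (x = v ∧ y = u))) :
    chr H = chr G + chr (contract H u v) := by
  classical
  have : Fintype V := Fintype.ofFinite V
  refine (eq_chr (p := chr G + chr (contract H u v)) ?_).symm
  intro k
  rw [Polynomial.eval_add, chr_spec G k, chr_spec (contract H u v) k, card_colorings,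
    card_colorings, card_colorings]
  have h1 : Nat.card {g : V → Fin k // Proper H g} =
      Nat.card {g : V → Fin k // Proper H g ∧ g u ≠ g v} +
        Nat.card {g : V → Fin k // Proper H g ∧ ¬ g u ≠ g v} := by
    simp only [Nat.card_eq_fintype_card, Fintype.card_subtype]
    rw [← Finset.filter_filter, ← Finset.filter_filter]
    exact (Finset.card_filter_add_card_filter_not _).symm
  have h2 : Nat.card {g : V → Fin k // Proper G g} =
      Nat.card {g : V → Fin k // Proper H g ∧ g u ≠ g v} := by
    apply Nat.card_congr
    apply Equiv.subtypeEquivRight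
    intro g
    constructor
    · intro h
      exact ⟨fun a b hab => h a b ((hG a b).2 (Or.inl hab)),
        h u v ((hG u v).2 (Or.inr (Or.inl ⟨rfl, rfl⟩)))⟩
    · rintro ⟨h, h'⟩ a b hab
      rcases (hG a b).1 hab with hab | ⟨rfl, rfl⟩ | ⟨rfl, rfl⟩
      · exact h a b hab
      · exact h'
      · exact h'.symm
  have h3 : Nat.card {g : {x : V // x ≠ v} → Fin k // Proper (contract H u v) g} =
      Nat.card {g : V → Fin k // Proper H g ∧ ¬ g u ≠ g v} := by
    apply Nat.card_congr
    refine
      { toFun := fun g => ⟨fun x => if hx : x = v then g.1 ⟨u, huv⟩ else g.1 ⟨x, hx⟩, ?_, ?_⟩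
        invFun := fun g => ⟨fun x => g.1 x.1, ?_⟩
        left_inv := ?_
        right_inv := ?_ }
    · intro a b hab
      by_cases ha : a = v
      · subst ha
        have hb : b ≠ a := hab.ne'
        simp only [dif_pos, dif_neg hb]
        apply g.2
        refine ⟨?_, Or.inr (Or.inl ⟨rfl, hab⟩)⟩
        intro h
        have h' : u = b := congrArg Subtype.val h
        exact hH (h' ▸ hab)
      · by_cases hb : b = v
        · subst hb
          simp only [dif_pos, dif_neg ha]
          apply g.2
          refine ⟨?_, Or.inr (Or.inr ⟨rfl, hab.symm⟩)⟩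
          intro h
          have h' : a = u := congrArg Subtype.val h
          exact hH (h' ▸ hab.symm)
        · simp only [dif_neg ha, dif_neg hb]
          apply g.2
          exact ⟨fun h => hab.ne (congrArg Subtype.val h), Or.inl hab⟩
    · simp [huv]
    · rintro x y ⟨_, h | ⟨h, h'⟩ | ⟨h, h'⟩⟩
      · exact g.2.1 _ _ h
      · have h3 := g.2.1 _ _ h'
        have h4 : g.1 u = g.1 v := not_not.1 g.2.2
        change g.1 x.1 ≠ g.1 y.1
        rw [h, h4]
        exact h3
      · have h3 := g.2.1 _ _ h'
        have h4 : g.1 u = g.1 v := not_not.1 g.2.2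
        change g.1 x.1 ≠ g.1 y.1
        rw [h, h4]
        exact h3.symm
    · intro g
      apply Subtype.ext
      funext x
      simp [x.2]
    · intro g
      apply Subtype.ext
      funext x
      have h4 : g.1 u = g.1 v := not_not.1 g.2.2
      by_cases hx : x = v
      · subst hx
        simp [h4]
      · simp [hx]
  rw [h1, h2, h3]
  push_cast
  ring

/-- A class of graphs closed under deletion of edges, deletion of vertices and contraction of
edges. -/
structure MinorClosed (𝒞 : ∀ V : Type, SimpleGraph V → Prop) : Prop where
  edge : ∀ (V : Type) (G H : SimpleGraph V), H ≤ G → 𝒞 V G → 𝒞 V H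
  vertex : ∀ (V : Type) (G : SimpleGraph V) (v : V), 𝒞 V G →
    𝒞 {x : V // x ≠ v} (G.comap Subtype.val)
  contr : ∀ (V : Type) (G : SimpleGraph V) (u v : V), G.Adj u v → 𝒞 V G →
    𝒞 {x : V // x ≠ v} (contract G u v)

theorem contract_mono {V : Type} {G H : SimpleGraph V} (h : H ≤ G) (u v : V) :
    contract H u v ≤ contract G u v := by
  rintro x y ⟨h1, h2 | ⟨h2, h3⟩ | ⟨h2, h3⟩⟩
  · exact ⟨h1, Or.inl (h h2)⟩
  · exact ⟨h1, Or.inr (Or.inl ⟨h2, h h3⟩)⟩
  · exact ⟨h1, Or.inr (Or.inr ⟨h2, h h3⟩)⟩

/-- adding edges decreases the value, inside the class -/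
theorem chr_anti (𝒞 : ∀ V : Type, SimpleGraph V → Prop) (h𝒞 : MinorClosed 𝒞) (q : ℝ)
    {V : Type} [Finite V]
    (hpos : ∀ (v : V) (G : SimpleGraph {x : V // x ≠ v}), 𝒞 _ G → 0 < (chr G).eval q)
    (K K' : SimpleGraph V) (hK : K ≤ K') (hK' : 𝒞 V K') :
    (chr K').eval q ≤ (chr K).eval q := by
  classical
  induction hN : Nat.card {e : Sym2 V // e ∈ K'.edgeSet ∧ e ∉ K.edgeSet}
    using Nat.strong_induction_on generalizing K' with
  | _ N ih =>
    subst hN
    by_cases heq : K' ≤ K
    · rw [le_antisymm hK heq]
    · have : ∃ a b, K'.Adj a b ∧ ¬ K.Adj a b := by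
        by_contra hcon
        push Not at hcon
        exact heq (fun a b h => hcon a b h)
      obtain ⟨a, b, hab, hnab⟩ := this
      let L : SimpleGraph V := K'.deleteEdges {s(a, b)}
      have hLadj : ∀ x y, L.Adj x y ↔ (K'.Adj x y ∧ s(x, y) ≠ s(a, b)) := by
        intro x y
        simp [L]
      have hL : L ≤ K' := fun x y h => ((hLadj x y).1 h).1
      have hKL : K ≤ L := by
        intro x y h
        rw [hLadj]
        refine ⟨hK h, ?_⟩
        intro h'
        rcases Sym2.eq_iff.1 h' with ⟨rfl, rfl⟩ | ⟨rfl, rfl⟩
        · exact hnab h
        · exact hnab h.symm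
      have hlt : Nat.card {e : Sym2 V // e ∈ L.edgeSet ∧ e ∉ K.edgeSet} <
          Nat.card {e : Sym2 V // e ∈ K'.edgeSet ∧ e ∉ K.edgeSet} := by
        have : Fintype V := Fintype.ofFinite V
        rw [Nat.card_eq_fintype_card, Nat.card_eq_fintype_card, Fintype.card_subtype,
          Fintype.card_subtype]
        apply Finset.card_lt_card
        rw [Finset.ssubset_iff_of_subset]
        · refine ⟨s(a, b), ?_, ?_⟩
          · simp only [Finset.mem_filter, Finset.mem_univ, true_and]
            exact ⟨hab, hnab⟩
          · simp only [Finset.mem_filter, Finset.mem_univ, true_and]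
            intro h
            exact ((hLadj a b).1 h.1).2 rfl
        · intro e he
          simp only [Finset.mem_filter, Finset.mem_univ, true_and] at he ⊢
          refine ⟨?_, he.2⟩
          have h1 := he.1
          induction e using Sym2.ind with
          | _ x y => exact hL h1
      have h1 := ih _ hlt L hKL (h𝒞.edge V K' L hL hK') rfl
      have hne : a ≠ b := hab.ne
      have h2 := del_con K' L a b hne (fun h => ((hLadj b a).1 h).2 Sym2.eq_swap) (by
        intro x y
        rw [hLadj]
        constructor
        · intro h
          by_cases h' : s(x, y) = s(a, b)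
          · rcases Sym2.eq_iff.1 h' with ⟨rfl, rfl⟩ | ⟨rfl, rfl⟩
            · exact Or.inr (Or.inl ⟨rfl, rfl⟩)
            · exact Or.inr (Or.inr ⟨rfl, rfl⟩)
          · exact Or.inl ⟨h, h'⟩
        · rintro (h | ⟨rfl, rfl⟩ | ⟨rfl, rfl⟩)
          · exact h.1
          · exact hab
          · exact hab.symm)
      have h3 : 𝒞 _ (contract L a b) :=
        h𝒞.edge _ _ _ (contract_mono hL a b) (h𝒞.contr V K' a b hab hK')
      have h4 := hpos b _ h3
      have h5 := congrArg (Polynomial.eval q) h2
      rw [Polynomial.eval_add] at h5
      linarith

/-- the graph where the vertex `v` keeps only its neighbours in `S` -/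
def keep {V : Type} (G : SimpleGraph V) (v : V) (S : Set V) : SimpleGraph V where
  Adj x y := G.Adj x y ∧ (x = v → y ∈ S) ∧ (y = v → x ∈ S)
  symm := ⟨fun x y h => ⟨h.1.symm, h.2.2, h.2.1⟩⟩
  loopless := ⟨fun x h => G.loopless.irrefl x h.1⟩

theorem chr_isolated {V : Type} [Finite V] (G : SimpleGraph V) (v : V) (hv : ∀ x, ¬ G.Adj v x) :
    chr G = X * chr (G.comap (Subtype.val : {x : V // x ≠ v} → V)) := by
  classical
  have : Fintype V := Fintype.ofFinite V
  refine (eq_chr (p := X * chr (G.comap (Subtype.val : {x : V // x ≠ v} → V))) ?_).symm
  intro k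
  rw [Polynomial.eval_mul, Polynomial.eval_X, chr_spec _ k, card_colorings, card_colorings]
  have h1 : Nat.card {g : V → Fin k // Proper G g} =
      Nat.card (Fin k × {g : {x : V // x ≠ v} → Fin k // Proper (G.comap Subtype.val) g}) := by
    apply Nat.card_congr
    refine
      { toFun := fun g => (g.1 v, ⟨fun x => g.1 x.1, fun a b h => g.2 _ _ h⟩)
        invFun := fun g => ⟨fun x => if hx : x = v then g.1 else g.2.1 ⟨x, hx⟩, ?_⟩
        left_inv := ?_
        right_inv := ?_ }
    · intro a b hab
      by_cases ha : a = v
      · subst ha
        exact absurd hab (hv b)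
      · by_cases hb : b = v
        · subst hb
          exact absurd hab.symm (hv a)
        · simp only [dif_neg ha, dif_neg hb]
          exact g.2.2 _ _ hab
    · intro g
      apply Subtype.ext
      funext x
      by_cases hx : x = v
      · subst hx
        simp
      · simp [hx]
    · intro g
      apply Prod.ext
      · simp
      · apply Subtype.ext
        funext x
        simp [x.2]
  rw [h1, Nat.card_prod, Nat.card_fin]
  push_cast
  rfl

theorem chr_iso {V W : Type} [Finite V] [Finite W] {G : SimpleGraph V} {H : SimpleGraph W}
    (h : ∀ p : ℝ[X], IsChrom G p → IsChrom H p) : chr G = chr H :=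
  eq_chr (h _ (chr_spec G))

/-- **Woodall, Thomassen**: positivity for `q > d`. -/
theorem minor_pos (𝒞 : ∀ V : Type, SimpleGraph V → Prop) (h𝒞 : MinorClosed 𝒞) (d : ℕ)
    (hdeg : ∀ (V : Type) [Finite V] [Nonempty V] (G : SimpleGraph V), 𝒞 V G →
      ∃ v, (G.neighborSet v).ncard ≤ d)
    (q : ℝ) (hq : (d : ℝ) < q) {V : Type} [Finite V] (G : SimpleGraph V) (hG : 𝒞 V G) :
    0 < (chr G).eval q := by
  classical
  induction hN : Nat.card V using Nat.strong_induction_on generalizing V with
  | _ N ih =>
    subst hN
    rcases isEmpty_or_nonempty V with he | hne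
    · have h1 : chr G = 1 := by
        refine (eq_chr (p := (1 : ℝ[X])) ?_).symm
        intro k
        rw [card_colorings]
        have : Nat.card {g : V → Fin k // Proper G g} = 1 := by
          rw [Nat.card_eq_one_iff_unique]
          refine ⟨⟨fun a b => Subtype.ext (funext fun x => (he.false x).elim)⟩,
            ⟨fun x => (he.false x).elim, fun a => (he.false a).elim⟩⟩
        rw [this]
        simp
      rw [h1]
      simp
    · obtain ⟨v, hv⟩ := hdeg V G hG
      have hcard : ∀ w : V, Nat.card {x : V // x ≠ w} < Nat.card V := by
        intro w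
        have : Fintype V := Fintype.ofFinite V
        rw [Nat.card_eq_fintype_card, Nat.card_eq_fintype_card]
        exact Fintype.card_subtype_lt (p := fun x => x ≠ w) (x := w) (by simp)
      have hpos : ∀ (w : V) (K : SimpleGraph {x : V // x ≠ w}), 𝒞 _ K → 0 < (chr K).eval q :=
        fun w K hK => ih _ (hcard w) K hK rfl
      set H : SimpleGraph {x : V // x ≠ v} := G.comap Subtype.val with hH
      have hHC : 𝒞 _ H := h𝒞.vertex V G v hG
      have hHpos := hpos v H hHC
      have hkeepC : ∀ S, 𝒞 V (keep G v S) := fun S =>
        h𝒞.edge V G _ (fun _ _ h => h.1) hG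
      have key : ∀ S : Finset V, (∀ x ∈ S, G.Adj v x) →
          (q - S.card) * (chr H).eval q ≤ (chr (keep G v (S : Set V))).eval q := by
        intro S
        induction S using Finset.induction_on with
        | empty =>
          intro _
          have h1 := chr_isolated (keep G v ((∅ : Finset V) : Set V)) v (by
            intro x h
            have := h.2.1 rfl
            simp at this)
          have h2 : (keep G v ((∅ : Finset V) : Set V)).comap
              (Subtype.val : {x : V // x ≠ v} → V) = H := by
            ext x y
            constructor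
            · intro h
              exact h.1
            · intro h
              exact ⟨h, fun h' => absurd h' x.2, fun h' => absurd h' y.2⟩
          rw [h1, h2]
          simp
        | insert u S hu ihS =>
          intro hS
          have hGu : G.Adj v u := hS u (Finset.mem_insert_self u S)
          have ih' := ihS (fun x hx => hS x (Finset.mem_insert_of_mem hx))
          have huv : u ≠ v := hGu.ne'
          have h2 := del_con (keep G v ((insert u S : Finset V) : Set V))
            (keep G v (S : Set V)) u v huv (by
              intro h
              exact hu (by simpa using h.2.1 rfl)) (by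
              intro x y
              constructor
              · rintro ⟨h3, h4, h5⟩
                by_cases hx : x = v
                · subst hx
                  have h6 := h4 rfl
                  rw [Finset.coe_insert, Set.mem_insert_iff] at h6
                  rcases h6 with h6 | h6
                  · exact Or.inr (Or.inr ⟨rfl, h6⟩)
                  · exact Or.inl ⟨h3, fun _ => h6, fun h => absurd h h3.ne'⟩
                · by_cases hy : y = v
                  · subst hy
                    have h6 := h5 rfl
                    rw [Finset.coe_insert, Set.mem_insert_iff] at h6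
                    rcases h6 with h6 | h6
                    · exact Or.inr (Or.inl ⟨h6, rfl⟩)
                    · exact Or.inl ⟨h3, fun h => absurd h hx, fun _ => h6⟩
                  · exact Or.inl ⟨h3, fun h => absurd h hx, fun h => absurd h hy⟩
              · rintro (⟨h3, h4, h5⟩ | ⟨rfl, rfl⟩ | ⟨rfl, rfl⟩)
                · refine ⟨h3, fun h => ?_, fun h => ?_⟩
                  · rw [Finset.coe_insert]
                    exact Set.mem_insert_of_mem _ (h4 h)
                  · rw [Finset.coe_insert]
                    exact Set.mem_insert_of_mem _ (h5 h)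
                · refine ⟨hGu.symm, fun h => absurd h huv, fun _ => ?_⟩
                  simp
                · refine ⟨hGu, fun _ => ?_, fun h => absurd h huv⟩
                  simp)
          have h3 := congrArg (Polynomial.eval q) h2
          rw [Polynomial.eval_add] at h3
          -- the contracted graph contains `H`
          have h4 : H ≤ contract (keep G v (S : Set V)) u v := by
            intro x y h
            refine ⟨fun h' => h.ne h', Or.inl ⟨h, fun h' => absurd h' x.2, fun h' => absurd h' y.2⟩⟩
          have h5 : 𝒞 _ (contract (keep G v (S : Set V)) u v) := by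
            refine h𝒞.edge _ (contract (keep G v ((insert u S : Finset V) : Set V)) u v) _
              (contract_mono ?_ u v) ?_
            · rintro _ _ ⟨a1, a2, a3⟩
              refine ⟨a1, fun h => ?_, fun h => ?_⟩
              · rw [Finset.coe_insert]
                exact Set.mem_insert_of_mem _ (a2 h)
              · rw [Finset.coe_insert]
                exact Set.mem_insert_of_mem _ (a3 h)
            · refine h𝒞.contr _ _ u v ?_ (hkeepC _)
              refine ⟨hGu.symm, fun h => absurd h huv, fun _ => ?_⟩
              simp
          have h6 : (chr (contract (keep G v (S : Set V)) u v)).eval q ≤ (chr H).eval q := by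
            apply chr_anti 𝒞 h𝒞 q _ H _ h4 h5
            intro w K hK
            have hc1 : Nat.card {x : {x : V // x ≠ v} // x ≠ w} < Nat.card V := by
              refine lt_trans ?_ (hcard v)
              have : Fintype {x : V // x ≠ v} := Fintype.ofFinite _
              rw [Nat.card_eq_fintype_card, Nat.card_eq_fintype_card]
              exact Fintype.card_subtype_lt (p := fun x => x ≠ w) (x := w) (by simp)
            exact ih _ hc1 K hK rfl
          have h7 : (q - ((insert u S : Finset V).card : ℝ)) * (chr H).eval q =
              (q - S.card) * (chr H).eval q - (chr H).eval q := by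
            rw [Finset.card_insert_of_notMem hu, Nat.cast_add, Nat.cast_one]
            ring
          linarith
      have hfin : (G.neighborSet v).Finite := Set.toFinite _
      have h7 := key hfin.toFinset (by
        intro x hx
        simpa using hx)
      have h8 : keep G v (hfin.toFinset : Set V) = G := by
        ext x y
        constructor
        · intro h
          exact h.1
        · intro h
          refine ⟨h, fun h' => ?_, fun h' => ?_⟩
          · subst h'
            simpa using h
          · subst h'
            simpa using h.symm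
      rw [h8] at h7
      have h9 : (hfin.toFinset.card : ℝ) ≤ d := by
        rw [← Set.ncard_eq_toFinset_card _ hfin]
        exact_mod_cast hv
      have h10 : 0 < (q - hfin.toFinset.card) * (chr H).eval q := by
        apply mul_pos _ hHpos
        linarith
      linarith

end Pool.Agent.H207R2.BL
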